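import Mathlib

set_option autoImplicit false
set_option linter.unusedVariables false

/-!
DG categories over a field, quasi-equivalences, DG algebras, right DG modules, the DG category of
perfect DG modules, the DG category of the K-injective complexes in a class.
-/

universe u v w v' w'

open CategoryTheory CochainComplex.HomComplex

namespace Pool.Agent.N212.Fin

variable {k : Type u} [Field k]

/-! ### Elements of complexes of vector spaces -/

section

variable {c : ComplexShape ℤ} {K L : HomologicalComplex (ModuleCat.{w} k) c}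

/-- The zero element. -/
def ze₀ (K : HomologicalComplex (ModuleCat.{w} k) c) (n : ℤ) : K.X n := 0

/-- The sum. -/
def ad₀ (K : HomologicalComplex (ModuleCat.{w} k) c) (n : ℤ) (x y : K.X n) : K.X n := x + y

/-- The multiple by a scalar. -/
def sm₀ (K : HomologicalComplex (ModuleCat.{w} k) c) (n : ℤ) (a : k) (x : K.X n) : K.X n := a • x

/-- The multiple by the sign `(-1) ^ m`. -/
def sg₀ (K : HomologicalComplex (ModuleCat.{w} k) c) (n : ℤ) (m : ℤ) (x : K.X n) : K.X n :=
  m.negOnePow • x

/-- The differential. -/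
def dd₀ (K : HomologicalComplex (ModuleCat.{w} k) c) (p q : ℤ) (x : K.X p) : K.X q :=
  (K.d p q).hom x

/-- The image under a morphism of complexes. -/
def ap₀ (f : K ⟶ L) (n : ℤ) (x : K.X n) : L.X n := (f.f n).hom x

/-- The subspace of the elements with a property. -/
def subm₀ (K : HomologicalComplex (ModuleCat.{w} k) c) (n : ℤ) (P : K.X n → Prop)
    (h₀ : P (ze₀ K n)) (h₁ : ∀ x y, P x → P y → P (ad₀ K n x y))
    (h₂ : ∀ a x, P x → P (sm₀ K n a x)) : Submodule k (K.X n) where
  carrier := {x | P x}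
  zero_mem' := h₀
  add_mem' := h₁ _ _
  smul_mem' := h₂

/-- The subcomplex given by subspaces. -/
def subc₀ (K : HomologicalComplex (ModuleCat.{w} k) c) (S : ∀ n, Submodule k (K.X n))
    (h : ∀ p q x, x ∈ S p → dd₀ K p q x ∈ S q) : HomologicalComplex (ModuleCat.{w} k) c where
  X n := ModuleCat.of k (S n)
  d p q := ModuleCat.ofHom ((K.d p q).hom.restrict (h p q))
  shape p q hpq := ModuleCat.hom_ext (LinearMap.ext fun x => Subtype.ext
    (congrArg (fun φ => φ.hom x.1) (K.shape p q hpq)))
  d_comp_d' p q r _ _ := ModuleCat.hom_ext (LinearMap.ext fun x => Subtype.ext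
    (congrArg (fun φ => φ.hom x.1) (K.d_comp_d p q r)))

end

/-- The elements of degree `n` of a complex of vector spaces. -/
def El (K : CochainComplex (ModuleCat.{w} k) ℤ) (n : ℤ) : Type w := K.X n

section

variable {K L : CochainComplex (ModuleCat.{w} k) ℤ}

/-- The zero element of degree `n`. -/
def ze (n : ℤ) : El K n := ze₀ K n

/-- The sum of two elements of degree `n`. -/
def ad {n : ℤ} (x y : El K n) : El K n := ad₀ K n x y

/-- The multiple of an element by a scalar. -/
def sm {n : ℤ} (a : k) (x : El K n) : El K n := sm₀ K n a x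

/-- The multiple of an element by the sign `(-1) ^ m`. -/
def sg {n : ℤ} (m : ℤ) (x : El K n) : El K n := sg₀ K n m x

/-- The differential. -/
def dd {p : ℤ} (q : ℤ) (x : El K p) : El K q := dd₀ K p q x

/-- The image of an element under a morphism of complexes. -/
def ap (f : K ⟶ L) {n : ℤ} (x : El K n) : El L n := ap₀ f n x

end

/-! ### DG categories -/

/-- A DG category over the field `k`: complexes of morphisms, bilinear compositions (written in
the order of the arrows) which are morphisms of complexes, identities. -/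
structure DGCat (k : Type u) [Field k] where
  /-- the objects -/
  Obj : Type v
  /-- the complexes of morphisms -/
  Hom : Obj → Obj → CochainComplex (ModuleCat.{w} k) ℤ
  /-- the composition -/
  comp : ∀ {X Y Z : Obj} {p q r : ℤ}, p + q = r → El (Hom X Y) p → El (Hom Y Z) q →
    El (Hom X Z) r
  /-- the identity -/
  one : ∀ X : Obj, El (Hom X X) 0
  lin_comp : ∀ {X Y Z : Obj} {p q r : ℤ} (h : p + q = r) (a : k) (f f' : El (Hom X Y) p)
    (g : El (Hom Y Z) q), comp h (ad (sm a f) f') g = ad (sm a (comp h f g)) (comp h f' g)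
  comp_lin : ∀ {X Y Z : Obj} {p q r : ℤ} (h : p + q = r) (a : k) (f : El (Hom X Y) p)
    (g g' : El (Hom Y Z) q), comp h f (ad (sm a g) g') = ad (sm a (comp h f g)) (comp h f g')
  one_comp : ∀ {X Y : Obj} {p : ℤ} (h : 0 + p = p) (f : El (Hom X Y) p), comp h (one X) f = f
  comp_one : ∀ {X Y : Obj} {p : ℤ} (h : p + 0 = p) (f : El (Hom X Y) p), comp h f (one Y) = f
  assoc : ∀ {X Y Z W : Obj} {p q r pq qr pqr : ℤ} (h₁ : p + q = pq) (h₂ : q + r = qr)
    (h₃ : pq + r = pqr) (h₄ : p + qr = pqr) (f : El (Hom X Y) p) (g : El (Hom Y Z) q)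
    (h : El (Hom Z W) r), comp h₃ (comp h₁ f g) h = comp h₄ f (comp h₂ g h)
  d_comp : ∀ {X Y Z : Obj} {p q r p' q' r' : ℤ} (h : p + q = r) (_ : p + 1 = p')
    (_ : q + 1 = q') (_ : r + 1 = r') (h₁ : p + q' = r') (h₂ : p' + q = r')
    (f : El (Hom X Y) p) (g : El (Hom Y Z) q),
    dd r' (comp h f g) = ad (comp h₁ f (dd q' g)) (sg q (comp h₂ (dd p' f) g))

/-- A DG functor. -/
structure DGFun (A : DGCat.{u, v, w} k) (B : DGCat.{u, v', w} k) where
  /-- on objects -/
  obj : A.Obj → B.Obj
  /-- on morphisms -/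
  map : ∀ X Y : A.Obj, A.Hom X Y ⟶ B.Hom (obj X) (obj Y)
  map_comp : ∀ {X Y Z : A.Obj} {p q r : ℤ} (h : p + q = r) (f : El (A.Hom X Y) p)
    (g : El (A.Hom Y Z) q), ap (map X Z) (A.comp h f g) =
      B.comp h (ap (map X Y) f) (ap (map Y Z) g)
  map_one : ∀ X : A.Obj, ap (map X X) (A.one X) = B.one (obj X)

/-- Two objects of a DG category are homotopy equivalent: isomorphic in the category of
closed morphisms of degree zero modulo exact ones. -/
def HEquiv (B : DGCat.{u, v, w} k) (X Y : B.Obj) : Prop :=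
  ∃ (h : (0 : ℤ) + 0 = 0) (f : El (B.Hom X Y) 0) (g : El (B.Hom Y X) 0)
    (s : El (B.Hom X X) (-1)) (t : El (B.Hom Y Y) (-1)), dd 1 f = ze 1 ∧ dd 1 g = ze 1 ∧
    B.comp h f g = ad (B.one X) (dd 0 s) ∧ B.comp h g f = ad (B.one Y) (dd 0 t)

/-- A DG functor is a quasi-equivalence if it induces quasi-isomorphisms on the complexes of
morphisms and each object of the target is homotopy equivalent to an object in the image. -/
def DGFun.IsQuasiEquiv {A : DGCat.{u, v, w} k} {B : DGCat.{u, v', w} k} (F : DGFun A B) : Prop :=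
  (∀ X Y : A.Obj, QuasiIso (F.map X Y)) ∧ ∀ Y : B.Obj, ∃ X : A.Obj, HEquiv B (F.obj X) Y

/-- Two DG categories are quasi-equivalent if they are connected by a roof of
quasi-equivalences. -/
def QuasiEquivalent (A : DGCat.{u, v, w} k) (B : DGCat.{u, v', w} k) : Prop :=
  ∃ (C : DGCat.{u, max v v', w} k) (F : DGFun C A) (G : DGFun C B),
    F.IsQuasiEquiv ∧ G.IsQuasiEquiv

/-- The full DG subcategory of the objects with a property. -/
def DGCat.full (C : DGCat.{u, v, w} k) (P : C.Obj → Prop) : DGCat.{u, v, w} k where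
  Obj := {X : C.Obj // P X}
  Hom X Y := C.Hom X.1 Y.1
  comp := C.comp
  one X := C.one X.1
  lin_comp := C.lin_comp
  comp_lin := C.comp_lin
  one_comp := C.one_comp
  comp_one := C.comp_one
  assoc := C.assoc
  d_comp := C.d_comp

/-- The objects generated by an object `G` of a DG category: the smallest class of objects which
contains `G` and is closed under shifts (objects `Y` with an invertible closed morphism of some
degree from an object `X` of the class), cones (objects `Y` which, as graded objects, are sums of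
`X` and of the shift by `1` of `Z`, compatibly with the differentials, for `X` and `Z` in the
class) and homotopy retracts. -/
inductive Gen (C : DGCat.{u, v, w} k) (G : C.Obj) : C.Obj → Prop
  | base : Gen C G G
  | shift (X Y : C.Obj) (n m : ℤ) (h : n + m = 0) (h' : m + n = 0) (a : El (C.Hom X Y) n)
      (b : El (C.Hom Y X) m) : dd (n + 1) a = ze (n + 1) → dd (m + 1) b = ze (m + 1) →
      C.comp h a b = C.one X → C.comp h' b a = C.one Y → Gen C G X → Gen C G Y
  | cone (X Y Z : C.Obj) (h : (0 : ℤ) + 0 = 0) (h' : (-1 : ℤ) + 1 = 0) (h'' : (1 : ℤ) + -1 = 0)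
      (i : El (C.Hom X Y) 0) (p : El (C.Hom Y Z) 1) (r : El (C.Hom Y X) 0)
      (s : El (C.Hom Z Y) (-1)) : dd 1 i = ze 1 → dd 2 p = ze 2 →
      C.comp h i r = C.one X → C.comp h' s p = C.one Z →
      ad (C.comp h r i) (C.comp h'' p s) = C.one Y → Gen C G X → Gen C G Z → Gen C G Y
  | retract (X Y : C.Obj) (h : (0 : ℤ) + 0 = 0) (i : El (C.Hom X Y) 0) (p : El (C.Hom Y X) 0)
      (s : El (C.Hom X X) (-1)) : dd 1 i = ze 1 → dd 1 p = ze 1 →
      C.comp h i p = ad (C.one X) (dd 0 s) → Gen C G Y → Gen C G X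

/-! ### Complexes in an abelian category -/

section

variable (k) (C : Type v) [Category.{w} C] [Preadditive C] [Linear k C]

/-- The complex of families of morphisms between two complexes in a `k`-linear category. -/
def HomCx (K L : CochainComplex C ℤ) : CochainComplex (ModuleCat.{w} k) ℤ where
  X n := ModuleCat.of k (Cochain K L n)
  d p q := ModuleCat.ofHom (δ_hom k K L p q)
  shape p q h := ModuleCat.hom_ext (LinearMap.ext fun f => δ_shape p q h f)
  d_comp_d' p q r _ _ := ModuleCat.hom_ext (LinearMap.ext fun f => δ_δ p q r f)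

variable {k C} in
/-- The composition of families of morphisms. -/
def cmp {K L M : CochainComplex C ℤ} {p q r : ℤ} (h : p + q = r) (f : El (HomCx k C K L) p)
    (g : El (HomCx k C L M) q) : El (HomCx k C K M) r :=
  Cochain.comp (n₁ := p) (n₂ := q) f g h

variable {C} in
/-- The identity family. -/
def idn (K : CochainComplex C ℤ) : El (HomCx k C K K) 0 := Cochain.ofHom (𝟙 K)

/-- The DG category of complexes in a `k`-linear category. -/
def CoDG : DGCat.{u, max v w, w} k where
  Obj := CochainComplex C ℤ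
  Hom := HomCx k C
  comp := cmp
  one := idn k
  lin_comp h a f f' g := by
    refine (Cochain.add_comp _ _ _ h).trans ?_
    exact congrArg (fun x => x + _) (Cochain.smul_comp a f g h)
  comp_lin h a f g g' := by
    refine (Cochain.comp_add _ _ _ h).trans ?_
    exact congrArg (fun x => x + _) (Cochain.comp_smul f a g h)
  one_comp _ f := Cochain.id_comp f
  comp_one _ f := Cochain.comp_id f
  assoc h₁ h₂ h₃ h₄ f g h := Cochain.comp_assoc f g h h₁ h₂ (by lia)
  d_comp h hp hq hr h₁ h₂ f g := δ_comp f g h _ _ _ hr hp hq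

end

/-- The DG category of K-injective complexes in an abelian category which belong to a class of
objects of the derived category. -/
def InjDG (k : Type u) [Field k] (C : Type v) [Category.{w} C] [Abelian C]
    [Linear k C] [HasDerivedCategory.{w'} C] (T : ObjectProperty (DerivedCategory C)) :
    DGCat.{u, max v w, w} k :=
  (CoDG k C).full fun I => CochainComplex.IsKInjective I ∧ T (DerivedCategory.Q.obj I)

/-! ### DG algebras and DG modules -/

/-- A DG algebra over the field `k`. -/
structure DGAlg (k : Type u) [Field k] where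
  /-- the underlying complex -/
  A : CochainComplex (ModuleCat.{w} k) ℤ
  /-- the product -/
  mul : ∀ {p q r : ℤ}, p + q = r → El A p → El A q → El A r
  /-- the unit -/
  one : El A 0
  lin_mul : ∀ {p q r : ℤ} (h : p + q = r) (c : k) (a a' : El A p) (b : El A q),
    mul h (ad (sm c a) a') b = ad (sm c (mul h a b)) (mul h a' b)
  mul_lin : ∀ {p q r : ℤ} (h : p + q = r) (c : k) (a : El A p) (b b' : El A q),
    mul h a (ad (sm c b) b') = ad (sm c (mul h a b)) (mul h a b')
  one_mul : ∀ {p : ℤ} (h : 0 + p = p) (a : El A p), mul h one a = a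
  mul_one : ∀ {p : ℤ} (h : p + 0 = p) (a : El A p), mul h a one = a
  assoc : ∀ {p q r pq qr pqr : ℤ} (h₁ : p + q = pq) (h₂ : q + r = qr)
    (h₃ : pq + r = pqr) (h₄ : p + qr = pqr) (a : El A p) (b : El A q) (c : El A r),
    mul h₃ (mul h₁ a b) c = mul h₄ a (mul h₂ b c)
  d_mul : ∀ {p q r p' q' r' : ℤ} (h : p + q = r) (_ : p + 1 = p')
    (_ : q + 1 = q') (_ : r + 1 = r') (h₁ : p + q' = r') (h₂ : p' + q = r')
    (a : El A p) (b : El A q),
    dd r' (mul h a b) = ad (mul h₂ (dd p' a) b) (sg p (mul h₁ a (dd q' b)))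

/-- A DG algebra is finite-dimensional if the sum of the dimensions of its homogeneous parts is
finite. -/
def DGAlg.IsFiniteDimensional (R : DGAlg.{u, w} k) : Prop :=
  (∀ n, Module.Finite k (R.A.X n)) ∧ {n | Nontrivial (El R.A n)}.Finite

/-- A right DG module over a DG algebra. -/
structure DGMod (R : DGAlg.{u, w} k) where
  /-- the underlying complex -/
  M : CochainComplex (ModuleCat.{w} k) ℤ
  /-- the action -/
  act : ∀ {p q r : ℤ}, p + q = r → El M p → El R.A q → El M r
  lin_act : ∀ {p q r : ℤ} (h : p + q = r) (c : k) (m m' : El M p) (a : El R.A q),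
    act h (ad (sm c m) m') a = ad (sm c (act h m a)) (act h m' a)
  act_lin : ∀ {p q r : ℤ} (h : p + q = r) (c : k) (m : El M p) (a a' : El R.A q),
    act h m (ad (sm c a) a') = ad (sm c (act h m a)) (act h m a')
  act_one : ∀ {p : ℤ} (h : p + 0 = p) (m : El M p), act h m R.one = m
  assoc : ∀ {p q r pq qr pqr : ℤ} (h₁ : p + q = pq) (h₂ : q + r = qr)
    (h₃ : pq + r = pqr) (h₄ : p + qr = pqr) (m : El M p) (a : El R.A q) (b : El R.A r),
    act h₃ (act h₁ m a) b = act h₄ m (R.mul h₂ a b)
  d_act : ∀ {p q r p' q' r' : ℤ} (h : p + q = r) (_ : p + 1 = p')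
    (_ : q + 1 = q') (_ : r + 1 = r') (h₁ : p + q' = r') (h₂ : p' + q = r')
    (m : El M p) (a : El R.A q),
    dd r' (act h m a) = ad (act h₂ (dd p' m) a) (sg p (act h₁ m (dd q' a)))

/-- A DG algebra as a right DG module. -/
def free (R : DGAlg.{u, w} k) : DGMod R where
  M := R.A
  act := R.mul
  lin_act := R.lin_mul
  act_lin := R.mul_lin
  act_one := R.mul_one
  assoc := R.assoc
  d_act := R.d_mul

/-- The value of a family of linear maps of degree `n` between complexes of vector spaces. -/
def ev {K L : CochainComplex (ModuleCat.{w} k) ℤ} {n : ℤ} (f : El (HomCx k (ModuleCat.{w} k) K L) n)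
    {p q : ℤ} (h : p + n = q) (x : El K p) : El L q := (Cochain.v (n := n) f p q h).hom x

/-- A family of linear maps of degree `n` between right DG modules commutes with the action. -/
def IsMor {R : DGAlg.{u, w} k} (M N : DGMod R) (n : ℤ)
    (f : El (HomCx k (ModuleCat.{w} k) M.M N.M) n) : Prop :=
  ∀ (p r s q q' : ℤ) (h : p + n = q) (h₁ : p + r = s) (h₂ : s + n = q')
    (h₃ : q + r = q') (m : El M.M p) (a : El R.A r), ev f h₂ (M.act h₁ m a) = N.act h₃ (ev f h m) a

section

variable {R : DGAlg.{u, w} k} {M N : DGMod R}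

lemma add_act (M : DGMod R) {p q r : ℤ} (h : p + q = r) (m m' : El M.M p) (a : El R.A q) :
    M.act h (ad m m') a = ad (M.act h m a) (M.act h m' a) := by
  have h1 := M.lin_act h 1 m m' a
  have h2 : ∀ {n : ℤ} (x : El M.M n), sm (1 : k) x = x := fun {n} x =>
    one_smul k (show M.M.X n from x)
  rwa [h2, h2] at h1

lemma ze_act (M : DGMod R) {p q r : ℤ} (h : p + q = r) (a : El R.A q) :
    M.act h (ze p) a = ze r := by
  have h1 := add_act M h (ze p) (ze p) a
  have h2 : ad (ze p : El M.M p) (ze p) = ze p := add_zero (M := M.M.X p) 0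
  rw [h2] at h1
  exact left_eq_add (M := M.M.X r).1 h1

lemma smul_act (M : DGMod R) {p q r : ℤ} (h : p + q = r) (c : k) (m : El M.M p) (a : El R.A q) :
    M.act h (sm c m) a = sm c (M.act h m a) := by
  have h1 := M.lin_act h c m (ze p) a
  have h2 : ∀ {n : ℤ} (x : El M.M n), ad x (ze n) = x := fun {n} x => add_zero (M := M.M.X n) x
  rwa [ze_act, h2, h2] at h1

lemma isMor_zero (n : ℤ) : IsMor M N n (ze n) := by
  intro p r s q q' h h₁ h₂ h₃ m a
  exact (ze_act N h₃ a).symm

lemma isMor_add (n : ℤ) (f g : El (HomCx k (ModuleCat.{w} k) M.M N.M) n)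
    (hf : IsMor M N n f) (hg : IsMor M N n g) : IsMor M N n (ad f g) := by
  intro p r s q q' h h₁ h₂ h₃ m a
  refine Eq.trans ?_ (add_act N h₃ (ev f h m) (ev g h m) a).symm
  change ad (ev f h₂ (M.act h₁ m a)) (ev g h₂ (M.act h₁ m a)) = _
  rw [hf p r s q q' h h₁ h₂ h₃ m a, hg p r s q q' h h₁ h₂ h₃ m a]

lemma isMor_smul (n : ℤ) (c : k) (f : El (HomCx k (ModuleCat.{w} k) M.M N.M) n)
    (hf : IsMor M N n f) : IsMor M N n (sm c f) := by
  intro p r s q q' h h₁ h₂ h₃ m a
  refine Eq.trans ?_ (smul_act N h₃ c (ev f h m) a).symm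
  change sm c (ev f h₂ (M.act h₁ m a)) = _
  rw [hf p r s q q' h h₁ h₂ h₃ m a]

lemma sg_eq {K : CochainComplex (ModuleCat.{w} k) ℤ} (m : ℤ) {n : ℤ} (x : El K n) :
    sg m x = sm (((m.negOnePow : ℤˣ) : ℤ) : k) x := by
  change m.negOnePow • (show K.X n from x) = (((m.negOnePow : ℤˣ) : ℤ) : k) • (show K.X n from x)
  rw [Int.cast_smul_eq_zsmul, Units.smul_def]

lemma ev_ad {K L : CochainComplex (ModuleCat.{w} k) ℤ} {n : ℤ}
    (f : El (HomCx k (ModuleCat.{w} k) K L) n) {p q : ℤ}
    (h : p + n = q) (x y : El K p) : ev f h (ad x y) = ad (ev f h x) (ev f h y) :=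
  map_add (Cochain.v (n := n) f p q h).hom _ _

lemma ev_sm {K L : CochainComplex (ModuleCat.{w} k) ℤ} {n : ℤ}
    (f : El (HomCx k (ModuleCat.{w} k) K L) n) {p q : ℤ}
    (h : p + n = q) (c : k) (x : El K p) : ev f h (sm c x) = sm c (ev f h x) :=
  map_smul (Cochain.v (n := n) f p q h).hom _ _

lemma ev_dd {K L : CochainComplex (ModuleCat.{w} k) ℤ} {n m : ℤ} (hnm : n + 1 = m)
    (f : El (HomCx k (ModuleCat.{w} k) K L) n) {p q : ℤ} (h : p + m = q) {r s : ℤ} (h₁ : p + n = r)
    (h₂ : p + 1 = s) (h₃ : s + n = q) (x : El K p) :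
    ev (dd m f) h x = ad (dd q (ev f h₁ x)) (sg m (ev f h₃ (dd s x))) := by
  obtain rfl : r = q - 1 := by lia
  obtain rfl := h₂
  have h4 := δ_v n m hnm (show Cochain K L n from f) p q h (q - 1) (p + 1) rfl rfl
  change ((δ n m (show Cochain K L n from f)).v p q h).hom x = _
  rw [h4]
  rfl

lemma alg_aux {V : Type w} [AddCommGroup V] [Module k V] (a b c : V) (x y z : k)
    (h : y * z = -x) : (a + x • b) + y • (c + z • b) = a + y • c := by
  rw [smul_add, smul_smul, h, neg_smul]
  abel

lemma isMor_dd (n m : ℤ) (f : El (HomCx k (ModuleCat.{w} k) M.M N.M) n)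
    (hf : IsMor M N n f) : IsMor M N m (dd m f) := by
  by_cases hnm : n + 1 = m
  · intro p r s q q' h h₁ h₂ h₃ x a
    rw [ev_dd hnm f h₂ (r := q' - 1) (s := s + 1) (by lia) rfl (by lia),
      ev_dd hnm f h (r := q - 1) (s := p + 1) (by lia) rfl (by lia),
      hf p r s (q - 1) (q' - 1) (by lia) h₁ (by lia) (by lia) x a,
      N.d_act (p := q - 1) (q := r) (r := q' - 1) (by lia) (p' := q) (by lia) (q' := r + 1) rfl
        (r' := q') (by lia) (by lia) h₃,
      M.d_act (p := p) (q := r) (r := s) h₁ (p' := p + 1) rfl (q' := r + 1) rfl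
        (r' := s + 1) rfl (by lia) (by lia)]
    simp only [sg_eq, ev_ad, ev_sm, add_act N, smul_act N]
    rw [hf (p + 1) r (s + 1) q q' (by lia) (by lia) (by lia) h₃,
      hf p (r + 1) (s + 1) (q - 1) q' (by lia) (by lia) (by lia) (by lia)]
    have e : ((((m.negOnePow : ℤˣ) : ℤ) : k)) * (((p.negOnePow : ℤˣ) : ℤ) : k) =
        -((((q - 1).negOnePow : ℤˣ) : ℤ) : k) := by
      rw [← Int.cast_mul, ← Units.val_mul, ← Int.negOnePow_add, show m + p = (q - 1) + 1 by lia,
        Int.negOnePow_succ, Units.val_neg, Int.cast_neg]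
    exact alg_aux (V := N.M.X q') _ _ _ _ _ _ e
  · have h1 : dd m f = ze m := δ_shape n m hnm (show Cochain M.M N.M n from f)
    rw [h1]
    exact isMor_zero m

lemma ev_cmp {K L P : CochainComplex (ModuleCat.{w} k) ℤ} {m n l : ℤ} (h : m + n = l)
    (f : El (HomCx k (ModuleCat.{w} k) K L) m) (g : El (HomCx k (ModuleCat.{w} k) L P) n)
    {a b c : ℤ} (h₁ : a + l = b) (h₂ : a + m = c) (h₃ : c + n = b) (x : El K a) :
    ev (cmp h f g) h₁ x = ev g h₃ (ev f h₂ x) := by
  change ((Cochain.comp (show Cochain K L m from f) (show Cochain L P n from g) h).v a b h₁).hom x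
    = _
  rw [Cochain.comp_v _ _ h a c b h₂ h₃]
  rfl

lemma isMor_cmp {P : DGMod R} {m n l : ℤ} (h : m + n = l)
    (f : El (HomCx k (ModuleCat.{w} k) M.M N.M) m) (g : El (HomCx k (ModuleCat.{w} k) N.M P.M) n)
    (hf : IsMor M N m f) (hg : IsMor N P n g) : IsMor M P l (cmp h f g) := by
  intro p r s q q' h' h₁ h₂ h₃ x a
  rw [ev_cmp h f g h₂ (c := s + m) rfl (by lia), ev_cmp h f g h' (c := p + m) rfl (by lia),
    hf p r s (p + m) (s + m) rfl h₁ rfl (by lia) x a,
    hg (p + m) r (s + m) q q' (by lia) (by lia) (by lia) h₃]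

lemma ev_idn {K : CochainComplex (ModuleCat.{w} k) ℤ} {a : ℤ} (h : a + 0 = a) (x : El K a) :
    ev (idn k K) h x = x := by
  change ((Cochain.ofHom (𝟙 K)).v a a h).hom x = _
  rw [Cochain.ofHom_v]
  rfl

lemma isMor_idn (M : DGMod R) : IsMor M M 0 (idn k M.M) := by
  intro p r s q q' h h₁ h₂ h₃ x a
  obtain rfl : p = q := by lia
  obtain rfl : s = q' := by lia
  rw [ev_idn, ev_idn]

end

section

variable {R : DGAlg.{u, w} k}

/-- The complex of morphisms of right DG modules: the subcomplex of the families of linear maps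
commuting with the action. -/
def MorCx (M N : DGMod R) : CochainComplex (ModuleCat.{w} k) ℤ :=
  subc₀ (HomCx k (ModuleCat.{w} k) M.M N.M)
    (fun n => subm₀ (HomCx k (ModuleCat.{w} k) M.M N.M) n (IsMor M N n) (isMor_zero n)
      (isMor_add n) (isMor_smul n)) isMor_dd

/-- The underlying family of linear maps of a morphism of right DG modules. -/
def fam {M N : DGMod R} {n : ℤ} (f : El (MorCx M N) n) :
    El (HomCx k (ModuleCat.{w} k) M.M N.M) n :=
  Subtype.val (p := fun x : El (HomCx k (ModuleCat.{w} k) M.M N.M) n => IsMor M N n x) f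

/-- A morphism of right DG modules from a family of linear maps. -/
def mor {M N : DGMod R} {n : ℤ} (f : El (HomCx k (ModuleCat.{w} k) M.M N.M) n)
    (hf : IsMor M N n f) : El (MorCx M N) n :=
  Subtype.mk (p := fun x : El (HomCx k (ModuleCat.{w} k) M.M N.M) n => IsMor M N n x) f hf

lemma isMor_fam {M N : DGMod R} {n : ℤ} (f : El (MorCx M N) n) : IsMor M N n (fam f) :=
  Subtype.property (p := fun x : El (HomCx k (ModuleCat.{w} k) M.M N.M) n => IsMor M N n x) f

lemma fam_ext {M N : DGMod R} {n : ℤ} {f g : El (MorCx M N) n} (h : fam f = fam g) : f = g :=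
  Subtype.ext (p := fun x : El (HomCx k (ModuleCat.{w} k) M.M N.M) n => IsMor M N n x) h

/-- The composition of morphisms of right DG modules. -/
def morCmp {M N P : DGMod R} {p q r : ℤ} (h : p + q = r)
    (f : El (MorCx M N) p) (g : El (MorCx N P) q) : El (MorCx M P) r :=
  mor (cmp h (fam f) (fam g)) (isMor_cmp h _ _ (isMor_fam f) (isMor_fam g))

/-- The identity of a right DG module. -/
def morId (M : DGMod R) : El (MorCx M M) 0 := mor (idn k M.M) (isMor_idn M)

end

/-- The DG category of all right DG modules. -/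
def ModDG (R : DGAlg.{u, w} k) : DGCat.{u, max u (w + 1), w} k where
  Obj := DGMod R
  Hom := MorCx
  comp := morCmp
  one := morId
  lin_comp h a f f' g := fam_ext ((CoDG k (ModuleCat.{w} k)).lin_comp h a _ _ _)
  comp_lin h a f g g' := fam_ext ((CoDG k (ModuleCat.{w} k)).comp_lin h a _ _ _)
  one_comp h f := fam_ext ((CoDG k (ModuleCat.{w} k)).one_comp h _)
  comp_one h f := fam_ext ((CoDG k (ModuleCat.{w} k)).comp_one h _)
  assoc h₁ h₂ h₃ h₄ f g h := fam_ext ((CoDG k (ModuleCat.{w} k)).assoc h₁ h₂ h₃ h₄ _ _ _)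
  d_comp h hp hq hr h₁ h₂ f g :=
    fam_ext ((CoDG k (ModuleCat.{w} k)).d_comp h hp hq hr h₁ h₂ _ _)

/-- The DG category of perfect right DG modules: the DG modules generated by the DG algebra. -/
def PerfDG (R : DGAlg.{u, w} k) : DGCat.{u, max u (w + 1), w} k :=
  (ModDG R).full (Gen (ModDG R) (free R))

end Pool.Agent.N212.Fin
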