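import Pool.Agent.N212.DG.Defs
import Pool.Agent.N212.Fin.Defs

set_option autoImplicit false
set_option linter.unusedVariables false

/-!
Comparison of the two presentations of DG categories.
-/

universe u v w v' w'

open CategoryTheory CochainComplex.HomComplex

namespace Pool.Agent.N212.Fin

variable {k : Type u} [Field k]

section Elements

variable {K L : CochainComplex (ModuleCat.{w} k) ℤ}

instance (n : ℤ) : AddCommGroup (El K n) := inferInstanceAs (AddCommGroup (K.X n))
instance (n : ℤ) : Module k (El K n) := inferInstanceAs (Module k (K.X n))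

lemma ad_eq {n : ℤ} (x y : El K n) : ad x y = x + y := rfl
lemma sm_eq {n : ℤ} (a : k) (x : El K n) : sm a x = a • x := rfl
lemma ze_eq (n : ℤ) : (ze n : El K n) = 0 := rfl
lemma sg_eq' {n : ℤ} (m : ℤ) (x : El K n) : sg m x = m.negOnePow • x := rfl

/-- The differential as a linear map. -/
def dL (K : CochainComplex (ModuleCat.{w} k) ℤ) (p q : ℤ) : El K p →ₗ[k] El K q := (K.d p q).hom

lemma dd_eq {p q : ℤ} (x : El K p) : dd q x = dL K p q x := rfl

lemma dd_dd {p q r : ℤ} (x : El K p) : dd r (dd q x) = 0 := by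
  have h := congrArg (fun φ => φ.hom x) (K.d_comp_d p q r)
  exact h

theorem quasiIso_of (f : K ⟶ L)
    (surj : ∀ (p q r : ℤ), p + 1 = q → q + 1 = r → ∀ z : El L q, dd r z = 0 →
      ∃ (x : El K q) (b : El L p), dd r x = 0 ∧ ap f x = z + dd q b)
    (inj : ∀ (p q r : ℤ), p + 1 = q → q + 1 = r → ∀ x : El K q, dd r x = 0 →
      ∀ b : El L p, ap f x = dd q b → ∃ a : El K p, x = dd q a) : QuasiIso f := by
  rw [quasiIso_iff]
  intro n
  rw [quasiIsoAt_iff_isIso_homologyMap]
  have hprev : (ComplexShape.up ℤ).prev n = n - 1 := by simp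
  have hnext : (ComplexShape.up ℤ).next n = n + 1 := by simp
  have hex : ∀ (M : CochainComplex (ModuleCat.{w} k) ℤ) (z : M.cycles n),
      (M.homologyπ n).hom z = 0 → ∃ b : El M (n - 1), (M.iCycles n).hom z = dd n b := by
    intro M z hz
    have h1 := ShortComplex.exact_of_g_is_cokernel (ShortComplex.mk (M.toCycles (n - 1) n)
      (M.homologyπ n) (M.toCycles_comp_homologyπ (n - 1) n)) (M.homologyIsCokernel (n - 1) n hprev)
    obtain ⟨b, hb⟩ := (ShortComplex.moduleCat_exact_iff _).1 h1 z hz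
    refine ⟨b, ?_⟩
    have h2 : (M.toCycles (n - 1) n).hom b = z := hb
    rw [← h2]
    exact congrArg (fun φ => φ.hom b) (M.toCycles_i (n - 1) n)
  have hlift : ∀ (M : CochainComplex (ModuleCat.{w} k) ℤ) (x : El M n), dd (n + 1) x = 0 →
      ∃ z : M.cycles n, (M.iCycles n).hom z = x := by
    intro M x hx
    have h1 := ShortComplex.exact_of_f_is_kernel (ShortComplex.mk (M.iCycles n)
      (M.d n (n + 1)) (M.iCycles_d n (n + 1))) (M.cyclesIsKernel n (n + 1) hnext)
    exact (ShortComplex.moduleCat_exact_iff _).1 h1 x hx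
  have hi : ∀ (M : CochainComplex (ModuleCat.{w} k) ℤ), Function.Injective (M.iCycles n).hom :=
    fun M => (ModuleCat.mono_iff_injective (M.iCycles n)).1 inferInstance
  have hp : ∀ (M : CochainComplex (ModuleCat.{w} k) ℤ), Function.Surjective (M.homologyπ n).hom :=
    fun M => (ModuleCat.epi_iff_surjective (M.homologyπ n)).1 inferInstance
  have hcl : ∀ (M : CochainComplex (ModuleCat.{w} k) ℤ) (z : M.cycles n),
      dd (n + 1) (show El M n from (M.iCycles n).hom z) = 0 := by
    intro M z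
    exact congrArg (fun φ => φ.hom z) (M.iCycles_d n (n + 1))
  have hb0 : ∀ (M : CochainComplex (ModuleCat.{w} k) ℤ) (b : El M (n - 1)),
      (M.homologyπ n).hom ((M.toCycles (n - 1) n).hom b) = 0 := by
    intro M b
    exact congrArg (fun φ => φ.hom b) (M.toCycles_comp_homologyπ (n - 1) n)
  have hti : ∀ (M : CochainComplex (ModuleCat.{w} k) ℤ) (b : El M (n - 1)),
      (M.iCycles n).hom ((M.toCycles (n - 1) n).hom b) = dd n b := by
    intro M b
    exact congrArg (fun φ => φ.hom b) (M.toCycles_i (n - 1) n)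
  have hnat : ∀ z : K.cycles n, (HomologicalComplex.homologyMap f n).hom ((K.homologyπ n).hom z) =
      (L.homologyπ n).hom ((HomologicalComplex.cyclesMap f n).hom z) := by
    intro z
    exact congrArg (fun φ => φ.hom z) (HomologicalComplex.homologyπ_naturality f n)
  have hnat' : ∀ z : K.cycles n, (L.iCycles n).hom ((HomologicalComplex.cyclesMap f n).hom z) =
      ap f (show El K n from (K.iCycles n).hom z) := by
    intro z
    exact congrArg (fun φ => φ.hom z) (HomologicalComplex.cyclesMap_i f n)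
  rw [ConcreteCategory.isIso_iff_bijective]
  constructor
  · refine (injective_iff_map_eq_zero (HomologicalComplex.homologyMap f n).hom).2 ?_
    intro x hx
    obtain ⟨z, rfl⟩ := hp K x
    have h1 := hnat z
    rw [hx] at h1
    obtain ⟨b, hb⟩ := hex L _ h1.symm
    rw [hnat'] at hb
    obtain ⟨a, ha⟩ := inj (n - 1) n (n + 1) (by lia) rfl _ (hcl K z) b hb
    have h2 : z = (K.toCycles (n - 1) n).hom a := by
      apply hi K
      rw [hti]
      exact ha
    rw [h2, hb0]
  · intro y
    obtain ⟨z, rfl⟩ := hp L y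
    obtain ⟨x, b, hx, hxb⟩ := surj (n - 1) n (n + 1) (by lia) rfl _ (hcl L z)
    obtain ⟨t, ht⟩ := hlift K x hx
    refine ⟨(K.homologyπ n).hom t, ?_⟩
    refine (hnat t).trans ?_
    have h3 : (HomologicalComplex.cyclesMap f n).hom t = z + (L.toCycles (n - 1) n).hom b := by
      apply hi L
      rw [hnat', map_add, hti, ht]
      exact hxb
    rw [h3, map_add, hb0, add_zero]

end Elements

section Cx

variable (X : ℤ → Type w) [∀ n, AddCommGroup (X n)] [∀ n, Module k (X n)]
  (d : ∀ p q, p + 1 = q → X p →ₗ[k] X q)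
  (hd : ∀ {p q r} (h₁ : p + 1 = q) (h₂ : q + 1 = r) (x : X p), d q r h₂ (d p q h₁ x) = 0)

/-- A complex from its homogeneous parts. -/
def cx : CochainComplex (ModuleCat.{w} k) ℤ where
  X n := ModuleCat.of k (X n)
  d p q := if h : p + 1 = q then ModuleCat.ofHom (d p q h) else 0
  shape p q h := dif_neg h
  d_comp_d' p q r h₁ h₂ := by
    have h₁' : p + 1 = q := h₁
    have h₂' : q + 1 = r := h₂
    rw [dif_pos h₁', dif_pos h₂']
    exact ModuleCat.hom_ext (LinearMap.ext fun x => hd h₁' h₂' x)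

lemma dd_cx {p q : ℤ} (h : p + 1 = q) (x : X p) :
    dd q (K := cx X d hd) (show El (cx X d hd) p from x) = d p q h x := by
  change (dite _ _ _ : ModuleCat.of k (X p) ⟶ ModuleCat.of k (X q)).hom x = _
  rw [dif_pos h]
  rfl

variable {X d hd} in
/-- A morphism from a complex given by its homogeneous parts. -/
def cxHom {L : CochainComplex (ModuleCat.{w} k) ℤ} (φ : ∀ n, X n →ₗ[k] L.X n)
    (h : ∀ p q (h : p + 1 = q) (x : X p), φ q (d p q h x) = (L.d p q).hom (φ p x)) :
    cx X d hd ⟶ L where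
  f n := ModuleCat.ofHom (φ n)
  comm' p q hpq := by
    have h₁ : p + 1 = q := hpq
    apply ModuleCat.hom_ext
    apply LinearMap.ext
    intro x
    refine (h p q h₁ x).symm.trans ?_
    exact congrArg (φ q) (dd_cx X d hd h₁ x).symm

end Cx

/-! ### DG categories -/

/-- A DG category in the second presentation. -/
def convC (A : DG.DGCat.{u, v, w} k) : DGCat.{u, v, w} k where
  Obj := A.Obj
  Hom X Y := cx (A.Hom X Y) A.d A.d_d
  comp {X Y Z} p q r h f g := A.comp h f g
  one X := A.one X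
  lin_comp {X Y Z} p q r h a f f' g := (LinearMap.map_add₂ (A.comp h) _ _ _).trans
    (congrArg (fun x => x + A.comp h f' g) (LinearMap.map_smul₂ (A.comp h) a _ _))
  comp_lin {X Y Z} p q r h a f g g' := (map_add (A.comp h f) _ _).trans
    (congrArg (fun x => x + A.comp h f g') (map_smul (A.comp h f) a _))
  one_comp h f := A.one_comp f
  comp_one h f := A.comp_one f
  assoc h₁ h₂ h₃ h₄ f g h := A.assoc h₁ h₂ h₃ h₄ f g h
  d_comp {X Y Z} p q r p' q' r' h hp hq hr h₁ h₂ f g := by
    refine (dd_cx _ _ _ hr _).trans ?_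
    refine (A.d_comp h hp hq hr h₁ h₂ f g).trans ?_
    have e1 : dd q' g = A.d q q' hq g := dd_cx (A.Hom Y Z) A.d A.d_d hq g
    have e2 : dd p' f = A.d p p' hp f := dd_cx (A.Hom X Y) A.d A.d_d hp f
    rw [e1, e2]
    rfl

lemma isQuasiEquiv_of {A : DG.DGCat.{u, v, w} k} {B : DGCat.{u, v', w} k}
    (F : DGFun (convC A) B)
    (surj : ∀ (X Y : A.Obj) (p q r : ℤ) (h₁ : p + 1 = q) (h₂ : q + 1 = r)
      (z : El (B.Hom (F.obj X) (F.obj Y)) q), dd r z = 0 →
      ∃ (f : A.Hom X Y q) (b : El (B.Hom (F.obj X) (F.obj Y)) p), A.d q r h₂ f = 0 ∧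
        ap (F.map X Y) (show El ((convC A).Hom X Y) q from f) = z + dd q b)
    (inj : ∀ (X Y : A.Obj) (p q r : ℤ) (h₁ : p + 1 = q) (h₂ : q + 1 = r)
      (f : A.Hom X Y q), A.d q r h₂ f = 0 → ∀ b : El (B.Hom (F.obj X) (F.obj Y)) p,
        ap (F.map X Y) (show El ((convC A).Hom X Y) q from f) = dd q b →
        ∃ a : A.Hom X Y p, f = A.d p q h₁ a)
    (ess : ∀ Y : B.Obj, ∃ X : A.Obj, HEquiv B (F.obj X) Y) : F.IsQuasiEquiv := by
  refine ⟨fun (X Y : A.Obj) => ?_, ess⟩
  apply quasiIso_of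
  · intro p q r h₁ h₂ z hz
    obtain ⟨f, b, hf, hfb⟩ := surj X Y p q r h₁ h₂ z hz
    exact ⟨f, b, (dd_cx (A.Hom X Y) A.d A.d_d h₂ f).trans hf, hfb⟩
  · intro p q r h₁ h₂ x hx b hb
    obtain ⟨a, ha⟩ := inj X Y p q r h₁ h₂ x ((dd_cx (A.Hom X Y) A.d A.d_d h₂ x).symm.trans hx) b hb
    exact ⟨a, ha.trans (dd_cx (A.Hom X Y) A.d A.d_d h₁ a).symm⟩

/-! ### K-injective complexes -/

section Inj

variable {C : Type v} [Category.{w} C] [Abelian C] [Linear k C] [HasDerivedCategory.{w'} C]
  {T : ObjectProperty (DerivedCategory C)} {A : DG.DGCat.{u, v', w} k}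
  (F : DG.DGFun A (DG.InjDG k C T))

/-- The functor in the second presentation. -/
def convI : DGFun (convC A) (InjDG k C T) where
  obj X := F.obj X
  map (X Y : A.Obj) := cxHom (X := A.Hom X Y) (d := A.d) (hd := A.d_d)
    (L := (InjDG k C T).Hom (F.obj X) (F.obj Y)) (fun n => F.map (X := X) (Y := Y) (n := n))
    fun p q h x => F.map_d h x
  map_comp h f g := F.map_comp h f g
  map_one X := F.map_one X

lemma convI_quasi (hF : F.IsQuasiEquiv) : (convI F).IsQuasiEquiv := by
  apply isQuasiEquiv_of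
  · intro X Y p q r h₁ h₂ z hz
    exact hF.surj X Y p q r h₁ h₂ z hz
  · intro X Y p q r h₁ h₂ f hf b hb
    exact hF.inj X Y p q r h₁ h₂ f hf b hb
  · intro Y
    obtain ⟨X, f, g, s, t, h1, h2, h3, h4⟩ := hF.ess Y
    exact ⟨X, rfl, f, g, s, t, h1, h2, h3, h4⟩

end Inj

end Pool.Agent.N212.Fin
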