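import Pool.Agent.N212.Fin.B1

set_option autoImplicit false
set_option linter.unusedVariables false

/-!
Comparison of the two presentations of DG modules.
-/

universe u v w v' w'

open CategoryTheory CochainComplex.HomComplex

namespace Pool.Agent.N212.Fin

variable {k : Type u} [Field k]

/-! ### Values of morphisms -/

section Values

variable {R : DGAlg.{u, w} k} {M N P : DGMod R}

/-- The values as linear maps. -/
def evL {K L : CochainComplex (ModuleCat.{w} k) ℤ} {n : ℤ} (f : El (HomCx k (ModuleCat.{w} k) K L) n)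
    {p q : ℤ} (h : p + n = q) : El K p →ₗ[k] El L q := (Cochain.v (n := n) f p q h).hom

lemma evL_apply {K L : CochainComplex (ModuleCat.{w} k) ℤ} {n : ℤ}
    (f : El (HomCx k (ModuleCat.{w} k) K L) n) {p q : ℤ} (h : p + n = q) (x : El K p) :
    evL f h x = ev f h x := rfl

/-- The value of a morphism of DG modules. -/
def va {n : ℤ} (f : El (MorCx M N) n) {p q : ℤ} (h : p + n = q) : El M.M p →ₗ[k] El N.M q :=
  evL (fam f) h

lemma va_ext {n : ℤ} {f g : El (MorCx M N) n}
    (h : ∀ (p q : ℤ) (h : p + n = q) (x : El M.M p), va f h x = va g h x) : f = g := by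
  apply fam_ext
  refine Cochain.ext _ _ fun p q hpq => ?_
  apply ModuleCat.hom_ext
  apply LinearMap.ext
  intro x
  exact h p q hpq x

lemma va_act {n : ℤ} (f : El (MorCx M N) n) {p r s q q' : ℤ} (h : p + n = q) (h₁ : p + r = s)
    (h₂ : s + n = q') (h₃ : q + r = q') (m : El M.M p) (a : El R.A r) :
    va f h₂ (M.act h₁ m a) = N.act h₃ (va f h m) a := isMor_fam f p r s q q' h h₁ h₂ h₃ m a

lemma va_cmp {m n l : ℤ} (h : m + n = l) (f : El (MorCx M N) m) (g : El (MorCx N P) n)
    {a b c : ℤ} (h₁ : a + l = b) (h₂ : a + m = c) (h₃ : c + n = b) (x : El M.M a) :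
    va (morCmp h f g) h₁ x = va g h₃ (va f h₂ x) := ev_cmp h (fam f) (fam g) h₁ h₂ h₃ x

lemma va_id {a : ℤ} (h : a + 0 = a) (x : El M.M a) : va (morId M) h x = x := ev_idn h x

lemma va_dd {n m : ℤ} (hnm : n + 1 = m) (f : El (MorCx M N) n) {p q : ℤ} (h : p + m = q) {r s : ℤ}
    (h₁ : p + n = r) (h₂ : p + 1 = s) (h₃ : s + n = q) (x : El M.M p) :
    va (dd m f) h x = dd q (va f h₁ x) + m.negOnePow • va f h₃ (dd s x) :=
  ev_dd hnm (fam f) h h₁ h₂ h₃ x

lemma va_add {n : ℤ} (f g : El (MorCx M N) n) {p q : ℤ} (h : p + n = q) (x : El M.M p) :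
    va (f + g) h x = va f h x + va g h x := rfl

lemma va_smul {n : ℤ} (c : k) (f : El (MorCx M N) n) {p q : ℤ} (h : p + n = q) (x : El M.M p) :
    va (c • f) h x = c • va f h x := rfl

lemma va_zero {n : ℤ} {p q : ℤ} (h : p + n = q) (x : El M.M p) :
    va (0 : El (MorCx M N) n) h x = 0 := rfl

/-- A morphism of DG modules from its values. -/
def mkM {n : ℤ} (φ : ∀ p q : ℤ, p + n = q → El M.M p →ₗ[k] El N.M q)
    (hφ : ∀ (p r s q q' : ℤ) (h : p + n = q) (h₁ : p + r = s) (h₂ : s + n = q')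
      (h₃ : q + r = q') (m : El M.M p) (a : El R.A r),
      φ s q' h₂ (M.act h₁ m a) = N.act h₃ (φ p q h m) a) : El (MorCx M N) n :=
  mor (Cochain.mk (fun p q h => ModuleCat.ofHom (φ p q h)) : Cochain M.M N.M n)
    fun p r s q q' h h₁ h₂ h₃ m a => hφ p r s q q' h h₁ h₂ h₃ m a

lemma va_mkM {n : ℤ} (φ : ∀ p q : ℤ, p + n = q → El M.M p →ₗ[k] El N.M q)
    (hφ : ∀ (p r s q q' : ℤ) (h : p + n = q) (h₁ : p + r = s) (h₂ : s + n = q')
      (h₃ : q + r = q') (m : El M.M p) (a : El R.A r),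
      φ s q' h₂ (M.act h₁ m a) = N.act h₃ (φ p q h m) a) {p q : ℤ} (h : p + n = q)
    (x : El M.M p) : va (mkM φ hφ) h x = φ p q h x := rfl

end Values

section Act

variable {R : DGAlg.{u, w} k} (M : DGMod R)

lemma one_sm {K : CochainComplex (ModuleCat.{w} k) ℤ} {n : ℤ} (x : El K n) :
    sm (1 : k) x = x := one_smul k x

lemma ad_zero {K : CochainComplex (ModuleCat.{w} k) ℤ} {n : ℤ} (x : El K n) :
    ad x 0 = x := add_zero x

lemma act_add {p q r : ℤ} (h : p + q = r) (m : El M.M p) (a a' : El R.A q) :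
    M.act h m (a + a') = M.act h m a + M.act h m a' := by
  have h1 := M.act_lin h 1 m a a'
  rw [one_sm, one_sm] at h1
  exact h1

lemma act_zero {p q r : ℤ} (h : p + q = r) (m : El M.M p) : M.act h m (0 : El R.A q) = 0 := by
  have h1 := act_add M h m 0 0
  rw [add_zero] at h1
  exact left_eq_add.1 h1

lemma act_smul {p q r : ℤ} (h : p + q = r) (c : k) (m : El M.M p) (a : El R.A q) :
    M.act h m (c • a) = c • M.act h m a := by
  have h1 := M.act_lin h c m a 0
  rw [ad_zero, act_zero, ad_zero] at h1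
  exact h1

end Act

/-! ### Conversions -/

/-- A DG algebra in the second presentation. -/
def convA (R : DG.DGAlg.{u, w} k) : DGAlg.{u, w} k where
  A := cx R.A R.d R.d_d
  mul h a b := R.mul h a b
  one := R.one
  lin_mul {p q r} h c a a' b := (LinearMap.map_add₂ (R.mul h) _ _ _).trans
    (congrArg (fun x => x + R.mul h a' b) (LinearMap.map_smul₂ (R.mul h) c _ _))
  mul_lin {p q r} h c a b b' := (map_add (R.mul h a) _ _).trans
    (congrArg (fun x => x + R.mul h a b') (map_smul (R.mul h a) c _))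
  one_mul h a := R.one_mul a
  mul_one h a := R.mul_one a
  assoc h₁ h₂ h₃ h₄ a b c := R.assoc h₁ h₂ h₃ h₄ a b c
  d_mul {p q r p' q' r'} h hp hq hr h₁ h₂ a b := by
    refine (dd_cx _ _ _ hr _).trans ?_
    refine (R.d_mul h hp hq hr h₁ h₂ a b).trans ?_
    have e1 : dd q' b = R.d q q' hq b := dd_cx R.A R.d R.d_d hq b
    have e2 : dd p' a = R.d p p' hp a := dd_cx R.A R.d R.d_d hp a
    rw [e1, e2]
    rfl

variable {R : DG.DGAlg.{u, w} k}

lemma finite_convA (h : R.IsFiniteDimensional) : (convA R).IsFiniteDimensional := h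

/-- A DG module in the second presentation. -/
def convM (M : DG.DGMod.{u, w, w} R) : DGMod (convA R) where
  M := cx M.M M.d M.d_d
  act h m a := M.act h m a
  lin_act {p q r} h c m m' a := (LinearMap.map_add₂ (M.act h) _ _ _).trans
    (congrArg (fun x => x + M.act h m' a) (LinearMap.map_smul₂ (M.act h) c _ _))
  act_lin {p q r} h c m a a' := (map_add (M.act h m) _ _).trans
    (congrArg (fun x => x + M.act h m a') (map_smul (M.act h m) c _))
  act_one h m := M.act_one m
  assoc h₁ h₂ h₃ h₄ m a b := M.assoc h₁ h₂ h₃ h₄ m a b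
  d_act {p q r p' q' r'} h hp hq hr h₁ h₂ m a := by
    refine (dd_cx _ _ _ hr _).trans ?_
    refine (M.d_act h hp hq hr h₁ h₂ m a).trans ?_
    have e1 : dd q' a = R.d q q' hq a := dd_cx R.A R.d R.d_d hq a
    have e2 : dd p' m = M.d p p' hp m := dd_cx M.M M.d M.d_d hp m
    rw [e1, e2]
    rfl

/-- A DG module in the first presentation. -/
def unM (M : DGMod (convA R)) : DG.DGMod.{u, w, w} R where
  M n := El M.M n
  d p q h := dL M.M p q
  act {p q r} h := LinearMap.mk₂ k (fun m a => M.act h m a) (fun m m' a => add_act M h m m' a)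
    (fun c m a => smul_act M h c m a)
    (fun m a a' => act_add M h m a a') (fun c m a => act_smul M h c m a)
  act_one m := M.act_one _ m
  assoc h₁ h₂ h₃ h₄ m a b := M.assoc h₁ h₂ h₃ h₄ m a b
  d_d h₁ h₂ m := dd_dd m
  d_act {p q r p' q' r'} h hp hq hr h₁ h₂ m a := by
    refine (M.d_act h hp hq hr h₁ h₂ m a).trans ?_
    have e1 : dd (K := (convA R).A) (p := q) q' a = R.d q q' hq a := dd_cx R.A R.d R.d_d hq a
    rw [e1]
    rfl

end Pool.Agent.N212.Fin
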