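import Pool.Agent.N212.Fin.B2

set_option autoImplicit false
set_option linter.unusedVariables false

/-!
Perfect DG modules in the two presentations: from the first to the second.
-/

universe u v w v' w'

open CategoryTheory CochainComplex.HomComplex

namespace Pool.Agent.N212.Fin

variable {k : Type u} [Field k] {R : DG.DGAlg.{u, w} k}

section Conv

variable {M N P : DG.DGMod.{u, w, w} R}

/-- The conversion of morphisms. -/
def toM {n : ℤ} (f : DG.DGMod.Mor M N n) : El (MorCx (convM M) (convM N)) n :=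
  mkM (M := convM M) (N := convM N) (fun p q h => DG.ev f p q h)
    (fun p r s q q' h h₁ h₂ h₃ m a => DG.ev_act f h h₁ h₂ h₃ m a)

lemma va_toM {n : ℤ} (f : DG.DGMod.Mor M N n) {p q : ℤ} (h : p + n = q) (x : M.M p) :
    va (toM f) h x = DG.ev f p q h x := rfl

/-- The conversion of morphisms, backwards. -/
def frM {n : ℤ} (f : El (MorCx (convM M) (convM N)) n) : DG.DGMod.Mor M N n :=
  DG.mk M N n (fun p q h => va f h)
    (fun p r s q q' h h₁ h₂ h₃ m a => va_act f h h₁ h₂ h₃ m a)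

lemma toM_frM {n : ℤ} (f : El (MorCx (convM M) (convM N)) n) : toM (frM f) = f :=
  va_ext fun p q h x => rfl

lemma frM_toM {n : ℤ} (f : DG.DGMod.Mor M N n) : frM (toM f) = f :=
  DG.ev_ext fun p q h x => rfl

lemma toM_del {n m : ℤ} (hnm : n + 1 = m) (f : DG.DGMod.Mor M N n) :
    toM (DG.del M N n m hnm f) = dd m (toM f) := by
  apply va_ext
  intro p q h x
  rw [va_dd hnm (toM f) h (r := p + n) (s := p + 1) rfl rfl (by lia)]
  refine (DG.ev_del hnm f p q (p + n) (p + 1) h rfl (by lia) rfl (by lia) x).trans ?_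
  have e1 : dd q (va (toM f) (rfl : p + n = p + n) x) =
      N.d (p + n) q (by lia) (DG.ev f p (p + n) rfl x) :=
    dd_cx N.M N.d N.d_d (by lia) _
  have e2 : dd (K := (convM M).M) (p := p) (p + 1) x = M.d p (p + 1) rfl x :=
    dd_cx M.M M.d M.d_d rfl x
  rw [e1, e2]
  rfl

lemma toM_cmp {m n l : ℤ} (h : m + n = l) (f : DG.DGMod.Mor M N m) (g : DG.DGMod.Mor N P n) :
    toM (DG.cmp M N P m n l h f g) = morCmp h (toM f) (toM g) := by
  apply va_ext
  intro p q h' x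
  rw [va_cmp h (toM f) (toM g) h' (c := p + m) rfl (by lia)]
  exact DG.ev_cmp h f g p q (p + m) h' rfl (by lia) x

lemma toM_idm : toM (DG.idm M) = morId (convM M) := by
  apply va_ext
  intro p q h x
  obtain rfl : p = q := by lia
  rw [va_id]
  rfl

lemma toM_zero {n : ℤ} : toM (0 : DG.DGMod.Mor M N n) = 0 := va_ext fun p q h x => rfl

lemma toM_add {n : ℤ} (f g : DG.DGMod.Mor M N n) : toM (f + g) = toM f + toM g :=
  va_ext fun p q h x => rfl

lemma toM_inj {n : ℤ} {f g : DG.DGMod.Mor M N n} (h : toM f = toM g) : f = g := by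
  rw [← frM_toM f, h, frM_toM]

end Conv

/-! ### Perfect modules -/

section Perf

variable (M : DG.DGMod.{u, w, w} R) (n : ℤ)

/-- The shift as a morphism. -/
def sh₁ : DG.DGMod.Mor M (DG.shift M n) (-n) :=
  DG.mk M (DG.shift M n) (-n) (fun p q h => DG.cst (V := M.M) (by lia : p = q + n)) (by
    intro p r s q q' h h₁ h₂ h₃ m a
    obtain rfl : p = q + n := by lia
    obtain rfl : s = q' + n := by lia
    rfl)

/-- The inverse of the shift as a morphism. -/
def sh₂ : DG.DGMod.Mor (DG.shift M n) M n :=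
  DG.mk (DG.shift M n) M n (fun p q h => DG.cst (V := M.M) (by lia : p + n = q)) (by
    intro p r s q q' h h₁ h₂ h₃ m a
    subst h
    subst h₂
    rfl)

lemma del_sh₁ : DG.del M (DG.shift M n) (-n) (-n + 1) rfl (sh₁ M n) = 0 := by
  apply DG.ev_ext
  intro p q h x
  rw [DG.ev_del rfl (sh₁ M n) p q (p + -n) (p + 1) h rfl (by lia) rfl (by lia) x, DG.ev_zero]
  obtain ⟨t, rfl⟩ : ∃ t, p = t + n := ⟨p - n, by lia⟩
  obtain ⟨s, hs⟩ : ∃ s, t + n + -n = s := ⟨_, rfl⟩
  obtain rfl : q = t + 1 := by lia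
  have e1 : ∀ (t' : ℤ) (ht' : t + n + -n = t') (hq : t' + 1 = t + 1),
      (DG.shift M n).d t' (t + 1) hq (DG.ev (sh₁ M n) (t + n) t' ht' x) =
      n.negOnePow • M.d (t + n) (t + 1 + n) (by lia) x := by
    intro t' ht' hq
    obtain rfl : t = t' := by lia
    rfl
  have e2 : ∀ (s : ℤ) (hs : t + n + 1 = s) (hq : s + -n = t + 1),
      DG.ev (sh₁ M n) s (t + 1) hq (M.d (t + n) s hs x) =
      M.d (t + n) (t + 1 + n) (by lia) x := by
    intro s hs hq
    obtain rfl : s = t + 1 + n := by lia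
    rfl
  rw [e1, e2, Int.negOnePow_succ, Int.negOnePow_neg]
  change _ + (-n.negOnePow) • (M.d (t + n) (t + 1 + n) _ x) = 0
  rw [Units.neg_smul, add_neg_cancel]

lemma del_sh₂ : DG.del (DG.shift M n) M n (n + 1) rfl (sh₂ M n) = 0 := by
  apply DG.ev_ext
  intro p q h x
  rw [DG.ev_del rfl (sh₂ M n) p q (p + n) (p + 1) h rfl (by lia) rfl (by lia) x, DG.ev_zero]
  have e1 : ∀ (t : ℤ) (ht : p + n = t) (hq : t + 1 = q),
      M.d t q hq (DG.ev (sh₂ M n) p t ht x) = M.d (p + n) q (by lia) x := by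
    intro t ht hq
    subst ht
    rfl
  have e2 : ∀ (hq : p + 1 + n = q), DG.ev (sh₂ M n) (p + 1) q hq
      ((DG.shift M n).d p (p + 1) rfl x) = n.negOnePow • M.d (p + n) q (by lia) x := by
    intro hq
    subst hq
    rfl
  rw [e1, e2, Int.negOnePow_succ, Units.neg_smul, smul_smul, Int.units_mul_self, one_smul,
    add_neg_cancel]

lemma sh₁₂ (h : -n + n = 0) :
    DG.cmp M (DG.shift M n) M (-n) n 0 h (sh₁ M n) (sh₂ M n) = DG.idm M := by
  apply DG.ev_ext
  intro p q h' x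
  obtain rfl : p = q := by lia
  rw [DG.ev_cmp h _ _ p p (p + -n) h' rfl (by lia), DG.ev_idm]
  obtain ⟨t, rfl⟩ : ∃ t, p = t + n := ⟨p - n, by lia⟩
  have e1 : ∀ (t' : ℤ) (ht' : t + n + -n = t') (hq : t' + n = t + n),
      DG.ev (sh₂ M n) t' (t + n) hq (DG.ev (sh₁ M n) (t + n) t' ht' x) = x := by
    intro t' ht' hq
    obtain rfl : t = t' := by lia
    rfl
  exact e1 _ _ _

lemma sh₂₁ (h : n + -n = 0) :
    DG.cmp (DG.shift M n) M (DG.shift M n) n (-n) 0 h (sh₂ M n) (sh₁ M n) =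
      DG.idm (DG.shift M n) := by
  apply DG.ev_ext
  intro p q h' x
  obtain rfl : p = q := by lia
  rw [DG.ev_cmp h _ _ p p (p + n) h' rfl (by lia), DG.ev_idm]
  rfl

end Perf

section Cone

variable {M N : DG.DGMod.{u, w, w} R} (f : DG.DGMod.Mor M N 0) (hf : DG.del M N 0 1 rfl f = 0)

/-- The inclusion in the cone. -/
def co₁ : DG.DGMod.Mor N (DG.cone f hf) 0 :=
  DG.mk N (DG.cone f hf) 0 (fun p q h => LinearMap.inl k (N.M q) (M.M (q + 1)) ∘ₗ
    DG.cst (V := N.M) (by lia : p = q)) (by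
    intro p r s q q' h h₁ h₂ h₃ m a
    obtain rfl : p = q := by lia
    obtain rfl : s = q' := by lia
    refine Prod.ext rfl ?_
    exact (LinearMap.map_zero₂ (M.act _) a).symm)

/-- The projection from the cone. -/
def co₂ : DG.DGMod.Mor (DG.cone f hf) M 1 :=
  DG.mk (DG.cone f hf) M 1 (fun p q h => DG.cst (V := M.M) (by lia : p + 1 = q) ∘ₗ
    LinearMap.snd k (N.M p) (M.M (p + 1))) (by
    intro p r s q q' h h₁ h₂ h₃ m a
    subst h
    subst h₂
    rfl)

/-- The retraction of the cone. -/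
def co₃ : DG.DGMod.Mor (DG.cone f hf) N 0 :=
  DG.mk (DG.cone f hf) N 0 (fun p q h => DG.cst (V := N.M) (by lia : p = q) ∘ₗ
    LinearMap.fst k (N.M p) (M.M (p + 1))) (by
    intro p r s q q' h h₁ h₂ h₃ m a
    obtain rfl : p = q := by lia
    obtain rfl : s = q' := by lia
    rfl)

/-- The section of the cone. -/
def co₄ : DG.DGMod.Mor M (DG.cone f hf) (-1) :=
  DG.mk M (DG.cone f hf) (-1) (fun p q h => LinearMap.inr k (N.M q) (M.M (q + 1)) ∘ₗ
    DG.cst (V := M.M) (by lia : p = q + 1)) (by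
    intro p r s q q' h h₁ h₂ h₃ m a
    obtain rfl : p = q + 1 := by lia
    obtain rfl : s = q' + 1 := by lia
    refine Prod.ext ?_ rfl
    exact (LinearMap.map_zero₂ (N.act _) a).symm)

lemma ev_co₁ {p : ℤ} (h : p + 0 = p) (x : N.M p) : DG.ev (co₁ f hf) p p h x = (x, 0) := rfl

lemma ev_co₂ {p : ℤ} (x : N.M p) (y : M.M (p + 1)) :
    DG.ev (co₂ f hf) p (p + 1) rfl ((x, y) : N.M p × M.M (p + 1)) = y := rfl

lemma ev_co₃ {p : ℤ} (h : p + 0 = p) (x : N.M p) (y : M.M (p + 1)) :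
    DG.ev (co₃ f hf) p p h ((x, y) : N.M p × M.M (p + 1)) = x := rfl

lemma ev_co₄ {p : ℤ} (h : p + 1 + -1 = p) (y : M.M (p + 1)) :
    DG.ev (co₄ f hf) (p + 1) p h y = (0, y) := rfl

lemma del_co₁ : DG.del N (DG.cone f hf) 0 1 rfl (co₁ f hf) = 0 := by
  apply DG.ev_ext
  intro p q h x
  subst h
  rw [DG.ev_del (m := 1) rfl (co₁ f hf) p (p + 1) p (p + 1) rfl (by lia) rfl rfl (by lia) x,
    DG.ev_zero]
  refine Prod.ext ?_ ?_
  · change (N.d p (p + 1) rfl x + DG.ev f (p + 1) (p + 1) _ 0) +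
      Int.negOnePow 1 • (N.d p (p + 1) rfl x) = 0
    rw [map_zero, add_zero, Int.negOnePow_one, Units.neg_smul, one_smul, add_neg_cancel]
  · change -(M.d (p + 1) (p + 1 + 1) _ 0) + Int.negOnePow 1 • (0 : M.M (p + 1 + 1)) = 0
    rw [map_zero, neg_zero, smul_zero, add_zero]

lemma del_co₂ : DG.del (DG.cone f hf) M 1 2 rfl (co₂ f hf) = 0 := by
  apply DG.ev_ext
  intro p q h x
  obtain rfl : q = p + 1 + 1 := by lia
  rw [DG.ev_del (m := 2) rfl (co₂ f hf) p (p + 1 + 1) (p + 1) (p + 1) h rfl rfl rfl rfl x,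
    DG.ev_zero]
  change M.d (p + 1) (p + 1 + 1) rfl x.2 + Int.negOnePow 2 • -(M.d (p + 1) (p + 1 + 1) _ x.2) = 0
  rw [show Int.negOnePow 2 = 1 from rfl, one_smul, add_neg_cancel]

lemma co₁₃ (h : (0 : ℤ) + 0 = 0) :
    DG.cmp N (DG.cone f hf) N 0 0 0 h (co₁ f hf) (co₃ f hf) = DG.idm N := by
  apply DG.ev_ext
  intro p q h' x
  obtain rfl : p = q := by lia
  rw [DG.ev_cmp h _ _ p p p h' h' h', DG.ev_idm]
  rfl

lemma co₄₂ (h : (-1 : ℤ) + 1 = 0) :
    DG.cmp M (DG.cone f hf) M (-1) 1 0 h (co₄ f hf) (co₂ f hf) = DG.idm M := by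
  apply DG.ev_ext
  intro p q h' x
  obtain rfl : p = q := by lia
  obtain ⟨t, rfl⟩ : ∃ t, p = t + 1 := ⟨p - 1, by lia⟩
  rw [DG.ev_cmp h _ _ (t + 1) (t + 1) t h' (by lia) rfl, DG.ev_idm]
  rfl

lemma co_sum (h : (0 : ℤ) + 0 = 0) (h' : (1 : ℤ) + -1 = 0) :
    DG.cmp (DG.cone f hf) N (DG.cone f hf) 0 0 0 h (co₃ f hf) (co₁ f hf) +
      DG.cmp (DG.cone f hf) M (DG.cone f hf) 1 (-1) 0 h' (co₂ f hf) (co₄ f hf) =
      DG.idm (DG.cone f hf) := by
  apply DG.ev_ext
  intro p q h'' x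
  obtain rfl : p = q := by lia
  rw [DG.ev_add, DG.ev_cmp h _ _ p p p h'' h'' h'', DG.ev_cmp h' _ _ p p (p + 1) h'' rfl (by lia),
    DG.ev_idm]
  refine Prod.ext ?_ ?_
  · change x.1 + 0 = x.1
    rw [add_zero]
  · change 0 + x.2 = x.2
    rw [zero_add]

end Cone

theorem gen_of_perf {M : DG.DGMod.{u, w, w} R} (h : DG.IsPerf M) :
    Gen (ModDG (convA R)) (free (convA R)) (convM M) := by
  induction h with
  | free => exact Gen.base
  | shift M n _ ih =>
    refine Gen.shift (C := ModDG (convA R)) (convM M) (convM (DG.shift M n)) (-n) n (by lia)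
      (by lia) (toM (sh₁ M n)) (toM (sh₂ M n)) ?_ ?_ ?_ ?_ ih
    · refine (toM_del rfl (sh₁ M n)).symm.trans ?_
      rw [del_sh₁]
      exact toM_zero
    · refine (toM_del rfl (sh₂ M n)).symm.trans ?_
      rw [del_sh₂]
      exact toM_zero
    · refine (toM_cmp _ (sh₁ M n) (sh₂ M n)).symm.trans ?_
      rw [sh₁₂]
      exact toM_idm
    · refine (toM_cmp _ (sh₂ M n) (sh₁ M n)).symm.trans ?_
      rw [sh₂₁]
      exact toM_idm
  | cone M N f hf _ _ ihM ihN =>
    refine Gen.cone (C := ModDG (convA R)) (convM N) (convM (DG.cone f hf)) (convM M) (by lia)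
      (by lia) (by lia) (toM (co₁ f hf)) (toM (co₂ f hf)) (toM (co₃ f hf)) (toM (co₄ f hf))
      ?_ ?_ ?_ ?_ ?_ ihN ihM
    · refine (toM_del (m := 1) rfl (co₁ f hf)).symm.trans ?_
      rw [del_co₁]
      exact toM_zero
    · refine (toM_del (m := 2) rfl (co₂ f hf)).symm.trans ?_
      rw [del_co₂]
      exact toM_zero
    · refine (toM_cmp _ (co₁ f hf) (co₃ f hf)).symm.trans ?_
      rw [co₁₃]
      exact toM_idm
    · refine (toM_cmp _ (co₄ f hf) (co₂ f hf)).symm.trans ?_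
      rw [co₄₂]
      exact toM_idm
    · refine Eq.trans ?_ ((congrArg toM (co_sum f hf (by lia) (by lia))).trans toM_idm)
      rw [toM_add, toM_cmp, toM_cmp]
      rfl
  | retract M N i p s hi hp hs _ ih =>
    refine Gen.retract (C := ModDG (convA R)) (convM N) (convM M) (by lia) (toM i) (toM p)
      (toM s) ?_ ?_ ?_ ih
    · refine (toM_del (m := 1) rfl i).symm.trans ?_
      rw [hi]
      exact toM_zero
    · refine (toM_del (m := 1) rfl p).symm.trans ?_
      rw [hp]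
      exact toM_zero
    · refine (toM_cmp _ i p).symm.trans ?_
      rw [hs, toM_add, toM_idm, toM_del]
      rfl

end Pool.Agent.N212.Fin
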