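import Pool.Agent.N212.Fin.B2

set_option autoImplicit false
set_option linter.unusedVariables false

/-!
Perfect DG modules in the two presentations: from the second to the first.
-/

universe u v w v' w'

open CategoryTheory CochainComplex.HomComplex

namespace Pool.Agent.N212.Fin

variable {k : Type u} [Field k] {R : DG.DGAlg.{u, w} k}

section UnF

variable {M N P : DGMod (convA R)}

lemma closed_va {R' : DGAlg.{u, w} k} {M N : DGMod R'} {n m : ℤ} (hnm : n + 1 = m)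
    (f : El (MorCx M N) n) (hf : dd m f = 0)
    {p q r s : ℤ} (h₁ : p + n = r) (h₂ : r + 1 = q) (h₃ : p + 1 = s) (h₄ : s + n = q)
    (x : El M.M p) : dd q (va f h₁ x) = n.negOnePow • va f h₄ (dd s x) := by
  have h5 := va_dd hnm f (p := p) (q := q) (by lia) h₁ h₃ h₄ x
  rw [hf, va_zero] at h5
  have h6 := (eq_neg_of_add_eq_zero_left h5.symm)
  rw [h6, ← hnm, Int.negOnePow_succ, Units.neg_smul, neg_neg]

/-- The conversion of morphisms. -/
def unF {n : ℤ} (f : El (MorCx M N) n) : DG.DGMod.Mor (unM M) (unM N) n :=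
  DG.mk (unM M) (unM N) n (fun p q h => va f h)
    (fun p r s q q' h h₁ h₂ h₃ m a => va_act f h h₁ h₂ h₃ m a)

lemma ev_unF {n : ℤ} (f : El (MorCx M N) n) {p q : ℤ} (h : p + n = q) (x : El M.M p) :
    DG.ev (unF f) p q h x = va f h x := rfl

lemma del_unF {n m : ℤ} (hnm : n + 1 = m) (f : El (MorCx M N) n) :
    DG.del (unM M) (unM N) n m hnm (unF f) = unF (dd m f) := by
  apply DG.ev_ext
  intro p q h x
  refine (DG.ev_del hnm (unF f) p q (p + n) (p + 1) h rfl (by lia) rfl (by lia) x).trans ?_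
  exact (va_dd hnm f h rfl rfl (by lia) x).symm

lemma cmp_unF {m n l : ℤ} (h : m + n = l) (f : El (MorCx M N) m) (g : El (MorCx N P) n) :
    DG.cmp (unM M) (unM N) (unM P) m n l h (unF f) (unF g) = unF (morCmp h f g) := by
  apply DG.ev_ext
  intro p q h' x
  refine (DG.ev_cmp h (unF f) (unF g) p q (p + m) h' rfl (by lia) x).trans ?_
  exact (va_cmp h f g h' rfl (by lia) x).symm

lemma unF_id : unF (morId M) = DG.idm (unM M) := by
  apply DG.ev_ext
  intro p q h x
  obtain rfl : p = q := by lia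
  exact va_id h x

lemma unF_add {n : ℤ} (f g : El (MorCx M N) n) : unF (ad f g) = unF f + unF g :=
  DG.ev_ext fun p q h x => rfl

lemma unF_zero {n : ℤ} : unF (ze n : El (MorCx M N) n) = 0 := DG.ev_ext fun p q h x => rfl

end UnF

lemma aux1 {V : Type w} [AddCommGroup V] {x y : V} (h : x = y) :
    x + Int.negOnePow 1 • y = 0 := by
  rw [h, Int.negOnePow_one, Units.neg_smul, one_smul, add_neg_cancel]

lemma perf_of_iso {M N : DG.DGMod.{u, w, w} R} (i : DG.DGMod.Mor N M 0) (p : DG.DGMod.Mor M N 0)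
    (hi : DG.del N M 0 1 rfl i = 0) (hp : DG.del M N 0 1 rfl p = 0)
    (h : DG.cmp N M N 0 0 0 rfl i p = DG.idm N) (hM : DG.IsPerf M) : DG.IsPerf N := by
  refine DG.IsPerf.retract M N i p 0 hi hp ?_ hM
  rw [h, map_zero, add_zero]

section Base

variable (M : DG.DGMod.{u, w, w} R)

/-- The comparison morphism. -/
def uc₁ : DG.DGMod.Mor (unM (convM M)) M 0 :=
  DG.mk (unM (convM M)) M 0 (fun p q h => DG.cst (V := M.M) (by lia : p = q)) (by
    intro p r s q q' h h₁ h₂ h₃ m a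
    obtain rfl : p = q := by lia
    obtain rfl : s = q' := by lia
    rfl)

/-- The comparison morphism. -/
def uc₂ : DG.DGMod.Mor M (unM (convM M)) 0 :=
  DG.mk M (unM (convM M)) 0 (fun p q h => DG.cst (V := M.M) (by lia : p = q)) (by
    intro p r s q q' h h₁ h₂ h₃ m a
    obtain rfl : p = q := by lia
    obtain rfl : s = q' := by lia
    rfl)

lemma del_uc₁ : DG.del (unM (convM M)) M 0 1 rfl (uc₁ M) = 0 := by
  apply DG.ev_ext
  intro p q h x
  subst h
  rw [DG.ev_del (m := 1) rfl (uc₁ M) p (p + 1) p (p + 1) rfl (by lia) rfl rfl (by lia) x,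
    DG.ev_zero]
  have e : (unM (convM M)).d p (p + 1) rfl x = M.d p (p + 1) rfl x :=
    dd_cx M.M M.d M.d_d rfl x
  exact aux1 (V := M.M (p + 1)) e.symm

lemma del_uc₂ : DG.del M (unM (convM M)) 0 1 rfl (uc₂ M) = 0 := by
  apply DG.ev_ext
  intro p q h x
  subst h
  rw [DG.ev_del (m := 1) rfl (uc₂ M) p (p + 1) p (p + 1) rfl (by lia) rfl rfl (by lia) x,
    DG.ev_zero]
  have e : (unM (convM M)).d p (p + 1) rfl x = M.d p (p + 1) rfl x :=
    dd_cx M.M M.d M.d_d rfl x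
  exact aux1 (V := M.M (p + 1)) e

lemma uc₁₂ : DG.cmp (unM (convM M)) M (unM (convM M)) 0 0 0 rfl (uc₁ M) (uc₂ M) =
    DG.idm (unM (convM M)) := by
  apply DG.ev_ext
  intro p q h' x
  obtain rfl : p = q := by lia
  rw [DG.ev_cmp _ _ _ p p p h' h' h']
  rfl

end Base

section Shift

variable {X Y : DGMod (convA R)} {n m : ℤ} (h : n + m = 0) (a : El (MorCx X Y) n)
  (b : El (MorCx Y X) m)

/-- The comparison with the shift. -/
def us₁ : DG.DGMod.Mor (unM Y) (DG.shift (unM X) m) 0 :=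
  DG.mk (unM Y) (DG.shift (unM X) m) 0 (fun p q h => va b (by lia : p + m = q + m)) (by
    intro p r s q q' h h₁ h₂ h₃ x c
    exact va_act b (by lia) h₁ (by lia) (by lia) x c)

/-- The comparison with the shift. -/
def us₂ : DG.DGMod.Mor (DG.shift (unM X) m) (unM Y) 0 :=
  DG.mk (DG.shift (unM X) m) (unM Y) 0 (fun p q h' => va a (by lia : p + m + n = q)) (by
    intro p r s q q' h' h₁ h₂ h₃ x c
    exact va_act a (by lia) (by lia) (by lia) h₃ x c)

lemma del_us₁ (hb : dd (m + 1) b = 0) :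
    DG.del (unM Y) (DG.shift (unM X) m) 0 1 rfl (us₁ b) = 0 := by
  apply DG.ev_ext
  intro p q h x
  subst h
  rw [DG.ev_del (m := 1) rfl (us₁ b) p (p + 1) p (p + 1) rfl (by lia) rfl rfl (by lia) x,
    DG.ev_zero]
  have e : m.negOnePow • (dd (p + 1 + m) (va b (by lia : p + m = p + m) x)) =
      va b (by lia) (dd (p + 1) x) := by
    rw [closed_va rfl b hb rfl (by lia) rfl (by lia) x, smul_smul, Int.units_mul_self, one_smul]
  exact aux1 (V := El X.M (p + 1 + m)) e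

include h in
lemma del_us₂ (ha : dd (n + 1) a = 0) :
    DG.del (DG.shift (unM X) m) (unM Y) 0 1 rfl (us₂ h a) = 0 := by
  apply DG.ev_ext
  intro p q h' x
  subst h'
  rw [DG.ev_del (m := 1) rfl (us₂ h a) p (p + 1) p (p + 1) rfl (by lia) rfl rfl (by lia) x,
    DG.ev_zero]
  have e : n.negOnePow = m.negOnePow := by
    obtain rfl : n = -m := by lia
    exact Int.negOnePow_neg m
  have e2 : dd (p + 1) (va a (by lia : p + m + n = p) x) = va a (by lia : p + 1 + m + n = p + 1)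
      (m.negOnePow • dd (K := X.M) (p := p + m) (p + 1 + m) x) := by
    rw [closed_va rfl a ha (by lia) rfl (by lia : p + m + 1 = p + 1 + m) (by lia) x, e,
      Units.smul_def, Units.smul_def, map_zsmul]
  exact aux1 (V := El Y.M (p + 1)) e2

lemma us_aux (h' : m + n = 0) (hba : morCmp h' b a = morId Y) {p q : ℤ} (h₁ : p + m = q)
    (h₂ : q + n = p) (x : El Y.M p) : va a h₂ (va b h₁ x) = x := by
  have h3 : va (morCmp h' b a) (by lia : p + 0 = p) x = va (morId Y) (by lia : p + 0 = p) x := by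
    rw [hba]
  rw [va_id, va_cmp h' b a _ h₁ h₂] at h3
  exact h3

lemma us₁₂ (h' : m + n = 0) (hba : morCmp h' b a = morId Y) :
    DG.cmp (unM Y) (DG.shift (unM X) m) (unM Y) 0 0 0 rfl (us₁ b) (us₂ h a) =
      DG.idm (unM Y) := by
  apply DG.ev_ext
  intro p q h'' x
  obtain rfl : p = q := by lia
  rw [DG.ev_cmp _ _ _ p p p h'' h'' h'', DG.ev_idm]
  exact us_aux a b h' hba _ _ x

end Shift

section Cone

variable {X Y Z : DGMod (convA R)} (i : El (MorCx X Y) 0) (π : El (MorCx Y Z) 1)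
  (r : El (MorCx Y X) 0) (s : El (MorCx Z Y) (-1)) (hi : dd 1 i = 0) (hπ : dd 2 π = 0)
  (h1 : ∀ {a : ℤ} (h : a + 0 = a) (x : El X.M a), va r h (va i h x) = x)
  (h2 : ∀ {a b : ℤ} (h : a + -1 = b) (h' : b + 1 = a) (z : El Z.M a), va π h' (va s h z) = z)
  (h3 : ∀ {a b : ℤ} (h₀ : a + 0 = a) (h : a + 1 = b) (h' : b + -1 = a) (y : El Y.M a),
    va i h₀ (va r h₀ y) + va s h' (va π h y) = y)

include h1 h2 h3 in
lemma rs_zero {a b : ℤ} (h : a + -1 = b) (h₀ : b + 0 = b) (z : El Z.M a) :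
    va r h₀ (va s h z) = 0 := by
  have h4 := h3 h₀ (b := a) (by omega) (by omega) (va s h z)
  rw [h2 h (by omega) z] at h4
  have h5 : va i h₀ (va r h₀ (va s h z)) = 0 := by
    have := add_eq_right.1 h4
    exact this
  rw [← h1 h₀ (va r h₀ (va s h z)), h5, map_zero]

include hi in
lemma i_d {a b : ℤ} (h : a + 1 = b) (h₀ : a + 0 = a) (h₀' : b + 0 = b) (x : El X.M a) :
    dd b (va i h₀ x) = va i h₀' (dd b x) := by
  have := closed_va (zero_add 1) i hi h₀ h h h₀' x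
  rw [this, Int.negOnePow_zero, one_smul]

include hπ in
lemma p_d {a b c : ℤ} (h : a + 1 = b) (h' : b + 1 = c) (y : El Y.M a) :
    dd c (va π h y) = -va π h' (dd b y) := by
  have := closed_va (by norm_num : (1 : ℤ) + 1 = 2) π hπ h h' h h' y
  rw [this, Int.negOnePow_one, Units.neg_smul, one_smul]

/-- The connecting morphism. -/
def cf : El (MorCx Z X) 0 := morCmp (zero_add 0) (dd 0 s) r

include h1 h2 h3 in
lemma va_cf {a b : ℤ} (h₀ : a + 0 = a) (h : a + -1 = b) (z : El Z.M a) :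
    va (cf r s) h₀ z = va r h₀ (dd a (va s h z)) := by
  rw [cf, va_cmp (zero_add 0) _ _ h₀ h₀ h₀,
    va_dd (by norm_num : (-1 : ℤ) + 1 = 0) s h₀ h (s := a + 1) rfl (by omega), map_add,
    Int.negOnePow_zero, one_smul, rs_zero i π r s h1 h2 h3, add_zero]

include hi h1 h2 h3 in
lemma r_d {a b : ℤ} (h : a + 1 = b) (h₀ : a + 0 = a) (h₀' : b + 0 = b) (y : El Y.M a) :
    va r h₀' (dd b y) = dd b (va r h₀ y) + va (cf r s) h₀' (va π h y) := by
  have h8 : b + -1 = a := by omega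
  have h4 := h3 h₀ h h8 y
  have h5 : dd b y = dd b (va i h₀ (va r h₀ y)) + dd b (va s h8 (va π h y)) := by
    have h6 := congrArg (dL Y.M a b) h4
    rw [map_add] at h6
    exact h6.symm
  rw [h5, map_add, i_d i hi h h₀ h₀', h1, va_cf i π r s h1 h2 h3 h₀' h8]

include hi hπ h1 h2 h3 in
lemma cf_d {a b : ℤ} (h : a + 1 = b) (h₀ : a + 0 = a) (h₀' : b + 0 = b) (z : El Z.M a) :
    dd b (va (cf r s) h₀ z) = va (cf r s) h₀' (dd b z) := by
  have h9 : a + -1 = a - 1 := by omega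
  have h10 : a - 1 + 1 = a := by omega
  have h4 := r_d i π r s hi h1 h2 h3 h h₀ h₀' (dd a (va s h9 z))
  rw [dd_dd, map_zero, ← va_cf i π r s h1 h2 h3 h₀ h9 z] at h4
  have h5 := p_d π hπ h10 h (va s h9 z)
  rw [h2 h9 h10 z] at h5
  have h6 : va π h (dd a (va s h9 z)) = -dd b z := by
    rw [h5, neg_neg]
  rw [h6, map_neg, ← sub_eq_add_neg] at h4
  exact sub_eq_zero.1 h4.symm

include hi hπ h1 h2 h3 in
lemma del_cf : DG.del (unM Z) (unM X) 0 1 rfl (unF (cf r s)) = 0 := by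
  apply DG.ev_ext
  intro p q h z
  subst h
  have h0 : p + 0 = p := by omega
  have h0' : p + 1 + 0 = p + 1 := by omega
  rw [DG.ev_del (m := 1) rfl (unF (cf r s)) p (p + 1) p (p + 1) rfl h0 rfl rfl h0' z,
    DG.ev_zero]
  exact aux1 (V := El X.M (p + 1)) (cf_d i π r s hi hπ h1 h2 h3 rfl h0 h0' z)

/-- The comparison with the cone. -/
def uk₁ (hf : DG.del (unM Z) (unM X) 0 1 rfl (unF (cf r s)) = 0) :
    DG.DGMod.Mor (unM Y) (DG.cone (unF (cf r s)) hf) 0 :=
  DG.mk (unM Y) (DG.cone (unF (cf r s)) hf) 0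
    (fun p q h => LinearMap.prod (va r h) (va π (by omega : p + 1 = q + 1))) (by
    intro p t u q q' h h₁ h₂ h₃ x c
    exact Prod.ext (va_act r h h₁ h₂ h₃ x c) (va_act π _ h₁ (by omega) (by omega) x c))

lemma act_pair {p t u q q' p' u' : ℤ} (h : p + 0 = q) (h₁ : p + t = u) (h₂ : u + 0 = q')
    (h₃ : q + t = q') (h' : p' + -1 = q) (h₁' : p' + t = u') (h₂' : u' + -1 = q') (x : El X.M p)
    (z : El Z.M p') (c : El (convA R).A t) :
    va i h₂ (X.act h₁ x c) + va s h₂' (Z.act h₁' z c) = Y.act h₃ (va i h x + va s h' z) c := by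
  rw [va_act i h h₁ h₂ h₃, va_act s h' h₁' h₂' h₃]
  exact (add_act Y h₃ _ _ c).symm

/-- The comparison with the cone. -/
def uk₂ (hf : DG.del (unM Z) (unM X) 0 1 rfl (unF (cf r s)) = 0) :
    DG.DGMod.Mor (DG.cone (unF (cf r s)) hf) (unM Y) 0 :=
  DG.mk (DG.cone (unF (cf r s)) hf) (unM Y) 0
    (fun p q h => LinearMap.coprod (va i h) (va s (by omega : p + 1 + -1 = q))) (by
    intro p t u q q' h h₁ h₂ h₃ x c
    exact act_pair i s h h₁ h₂ h₃ (by omega) (by omega) (by omega) x.1 x.2 c)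

include hi hπ h1 h2 h3 in
lemma del_uk₁ (hf : DG.del (unM Z) (unM X) 0 1 rfl (unF (cf r s)) = 0) :
    DG.del (unM Y) (DG.cone (unF (cf r s)) hf) 0 1 rfl (uk₁ π r s hf) = 0 := by
  apply DG.ev_ext
  intro p q h y
  subst h
  have h0 : p + 0 = p := by omega
  have h0' : p + 1 + 0 = p + 1 := by omega
  rw [DG.ev_del (m := 1) rfl (uk₁ π r s hf) p (p + 1) p (p + 1) rfl h0 rfl rfl h0' y,
    DG.ev_zero]
  refine Prod.ext ?_ ?_
  · exact aux1 (V := El X.M (p + 1)) (r_d i π r s hi h1 h2 h3 rfl h0 h0' y).symm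
  · have h5 := p_d π hπ (a := p) (b := p + 1) (c := p + 1 + 1) rfl rfl y
    exact aux1 (V := El Z.M (p + 1 + 1)) (neg_eq_iff_eq_neg.2 h5)

include hi hπ h1 h2 h3 in
lemma d_pair {p q q' : ℤ} (h : p + 1 = q) (h0 : p + 0 = p) (h0' : q + 0 = q) (h₁ : q + -1 = p)
    (h₂ : q + 1 = q') (h₃ : q' + -1 = q) (x : El X.M p) (z : El Z.M q) :
    dd q (va i h0 x + va s h₁ z) = va i h0' (dd q x + va (cf r s) h0' z) +
      va s h₃ (-dd q' z) := by
  have h4 := h3 h0' h₂ h₃ (dd q (va s h₁ z))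
  have h5 := p_d π hπ h h₂ (va s h₁ z)
  rw [h2 h₁ h z] at h5
  have h6 : va π h₂ (dd q (va s h₁ z)) = -dd q' z := by
    rw [h5, neg_neg]
  rw [h6] at h4
  have h7 := i_d i hi h h0 h0' x
  have h8 : dd q (va i h0 x + va s h₁ z) = dd q (va i h0 x) + dd q (va s h₁ z) :=
    map_add (dL Y.M p q) _ _
  rw [h8, h7, map_add, va_cf i π r s h1 h2 h3 h0' h₁, add_assoc, h4]

include hi hπ h1 h2 h3 in
lemma del_uk₂ (hf : DG.del (unM Z) (unM X) 0 1 rfl (unF (cf r s)) = 0) :
    DG.del (DG.cone (unF (cf r s)) hf) (unM Y) 0 1 rfl (uk₂ i r s hf) = 0 := by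
  apply DG.ev_ext
  intro p q h x
  subst h
  have h0 : p + 0 = p := by omega
  have h0' : p + 1 + 0 = p + 1 := by omega
  rw [DG.ev_del (m := 1) rfl (uk₂ i r s hf) p (p + 1) p (p + 1) rfl h0 rfl rfl h0' x,
    DG.ev_zero]
  exact aux1 (V := El Y.M (p + 1)) (d_pair i π r s hi hπ h1 h2 h3 rfl h0 h0' (by omega) rfl
    (by omega) x.1 x.2)

include h3 in
lemma uk₁₂ (hf : DG.del (unM Z) (unM X) 0 1 rfl (unF (cf r s)) = 0) :
    DG.cmp (unM Y) (DG.cone (unF (cf r s)) hf) (unM Y) 0 0 0 rfl (uk₁ π r s hf) (uk₂ i r s hf) =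
      DG.idm (unM Y) := by
  apply DG.ev_ext
  intro p q h' x
  obtain rfl : p = q := by omega
  rw [DG.ev_cmp _ _ _ p p p h' h' h', DG.ev_idm]
  exact h3 _ _ _ x

end Cone

theorem perf_of_gen {Y : (ModDG (convA R)).Obj}
    (h : Gen (ModDG (convA R)) (free (convA R)) Y) : DG.IsPerf (unM Y) := by
  induction h with
  | base =>
    exact perf_of_iso (uc₁ (DG.free R)) (uc₂ (DG.free R)) (del_uc₁ _) (del_uc₂ _) (uc₁₂ _)
      DG.IsPerf.free
  | shift X Y n m h h' a b ha hb hab hba _ ih =>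
    exact perf_of_iso (us₁ b) (us₂ h a) (del_us₁ b hb) (del_us₂ h a ha) (us₁₂ h a b h' hba)
      (DG.IsPerf.shift _ _ ih)
  | cone X Y Z h h' h'' i π r s hi hπ hir hsp hsum _ _ ihX ihZ =>
    have h1 : ∀ {a : ℤ} (h : a + 0 = a) (x : El (DGMod.M X) a), va r h (va i h x) = x := by
      intro a h₀ x
      have h4 := congrArg (fun f => va f h₀ x) hir
      exact ((va_cmp h i r h₀ h₀ h₀ x).symm.trans h4).trans (va_id h₀ x)
    have h2 : ∀ {a b : ℤ} (h : a + -1 = b) (h' : b + 1 = a) (z : El (DGMod.M Z) a),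
        va π h' (va s h z) = z := by
      intro a b h₁ h₂ z
      have h4 := congrArg (fun f => va f (by omega : a + 0 = a) z) hsp
      exact ((va_cmp h' s π _ h₁ h₂ z).symm.trans h4).trans (va_id _ z)
    have h3 : ∀ {a b : ℤ} (h₀ : a + 0 = a) (h : a + 1 = b) (h' : b + -1 = a)
        (y : El (DGMod.M Y) a), va i h₀ (va r h₀ y) + va s h' (va π h y) = y := by
      intro a b h₀ h₁ h₂ y
      have h4 := congrArg (fun f => va f h₀ y) hsum
      refine Eq.trans ?_ (h4.trans (va_id h₀ y))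
      exact congrArg₂ (fun x y => x + y) (va_cmp h r i h₀ h₀ h₀ y).symm
        (va_cmp h'' π s h₀ h₁ h₂ y).symm
    have hf := del_cf i π r s hi hπ h1 h2 h3
    exact perf_of_iso (uk₁ π r s hf) (uk₂ i r s hf) (del_uk₁ i π r s hi hπ h1 h2 h3 hf)
      (del_uk₂ i π r s hi hπ h1 h2 h3 hf) (uk₁₂ i π r s h3 hf)
      (DG.IsPerf.cone _ _ _ _ ihZ ihX)
  | retract X Y h i π s hi hπ hs _ ih =>
    refine DG.IsPerf.retract (unM Y) (unM X) (unF i) (unF π) (unF s) ?_ ?_ ?_ ih
    · refine (del_unF (m := 1) rfl i).trans ?_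
      exact (congrArg unF hi).trans unF_zero
    · refine (del_unF (m := 1) rfl π).trans ?_
      exact (congrArg unF hπ).trans unF_zero
    · refine (cmp_unF rfl i π).trans ?_
      refine (congrArg unF hs).trans ?_
      refine (unF_add _ _).trans ?_
      exact congrArg₂ (fun x y => x + y) unF_id (del_unF (m := 0) rfl s).symm

end Pool.Agent.N212.Fin
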