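import Pool.Agent.N212.Fin.B3
import Pool.Agent.N212.Fin.B4

set_option autoImplicit false
set_option linter.unusedVariables false

/-!
The comparison of the two notions of quasi-equivalence.
-/

universe u v w v' w'

open CategoryTheory CochainComplex.HomComplex

namespace Pool.Agent.N212.Fin

variable {k : Type u} [Field k] {R : DG.DGAlg.{u, w} k}

theorem conv_un (N : DGMod (convA R)) : convM (unM N) = N := by
  obtain ⟨⟨X, d, hs, hd⟩, act, h1, h2, h3, h4, h5⟩ := N
  have key : ∀ (d' : ∀ i j, X i ⟶ X j) (hs') (hd') (h1') (h2') (h3') (h4') (h5'), d' = d →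
      DGMod.mk (R := convA R) ⟨X, d', hs', hd'⟩ act h1' h2' h3' h4' h5' =
      DGMod.mk (R := convA R) ⟨X, d, hs, hd⟩ act h1 h2 h3 h4 h5 := by
    intro d' hs' hd' h1' h2' h3' h4' h5' h
    subst h
    rfl
  refine key _ _ _ _ _ _ _ _ ?_
  funext p q
  by_cases h : p + 1 = q
  · exact dif_pos h
  · refine (dif_neg h).trans ?_
    exact (hs p q h).symm

section Functor

/-- The conversion of morphisms as a linear map. -/
def toML (M N : DG.DGMod.{u, w, w} R) (n : ℤ) :
    DG.DGMod.Mor M N n →ₗ[k] (MorCx (convM M) (convM N)).X n where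
  toFun := toM
  map_add' := toM_add
  map_smul' _ _ := rfl

variable {A : DG.DGCat.{u, v, w} k} (G : DG.DGFun A (DG.PerfDG R))

/-- The functor in the second presentation. -/
def convG : DGFun (convC A) (PerfDG (convA R)) where
  obj X := ⟨convM (G.obj X).1, gen_of_perf (G.obj X).2⟩
  map (X Y : A.Obj) := cxHom (X := A.Hom X Y) (d := A.d) (hd := A.d_d)
    (L := MorCx (convM (G.obj X).1) (convM (G.obj Y).1))
    (fun n => toML (G.obj X).1 (G.obj Y).1 n ∘ₗ G.map (X := X) (Y := Y) (n := n))
    fun p q h x => (congrArg toM (G.map_d h x)).trans (toM_del h _)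
  map_comp h f g := (congrArg toM (G.map_comp h f g)).trans (toM_cmp h _ _)
  map_one X := (congrArg toM (G.map_one X)).trans toM_idm

lemma convG_quasi (hG : G.IsQuasiEquiv) : (convG G).IsQuasiEquiv := by
  apply isQuasiEquiv_of
  · intro X Y p q r h₁ h₂ z hz
    have h3 : DG.del _ _ q r h₂ (frM (M := (G.obj X).1) (N := (G.obj Y).1) z) = 0 := by
      apply toM_inj
      refine (toM_del h₂ _).trans (Eq.trans ?_ toM_zero.symm)
      exact (congrArg (fun x => dd r x) (toM_frM z)).trans hz
    obtain ⟨f, b, hf, hb⟩ := hG.surj X Y p q r h₁ h₂ (frM z) h3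
    refine ⟨f, toM b, hf, ?_⟩
    refine (congrArg toM hb).trans ?_
    refine (toM_add _ _).trans ?_
    refine congrArg₂ (fun x y => x + y) (toM_frM z) ?_
    exact toM_del h₁ b
  · intro X Y p q r h₁ h₂ f hf b hb
    refine hG.inj X Y p q r h₁ h₂ f hf (frM b) ?_
    apply toM_inj
    refine Eq.trans hb ?_
    refine Eq.trans ?_ (toM_del h₁ (frM (M := (G.obj X).1) (N := (G.obj Y).1) b)).symm
    exact (congrArg (fun x => dd q x) (toM_frM b)).symm
  · intro Y
    obtain ⟨N, hN⟩ := Y
    obtain ⟨X, f, g, s, t, h1, h2, h3, h4⟩ := hG.ess ⟨unM N, perf_of_gen hN⟩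
    refine ⟨X, ?_⟩
    have e : (⟨convM (unM N), gen_of_perf (perf_of_gen hN)⟩ : (PerfDG (convA R)).Obj) =
        ⟨N, hN⟩ := Subtype.ext (conv_un N)
    rw [← e]
    refine ⟨rfl, toM f, toM g, toM s, toM t, ?_, ?_, ?_, ?_⟩
    · exact (toM_del (m := 1) rfl f).symm.trans ((congrArg toM h1).trans toM_zero)
    · exact (toM_del (m := 1) rfl g).symm.trans ((congrArg toM h2).trans toM_zero)
    · refine (toM_cmp rfl f g).symm.trans ((congrArg toM h3).trans ((toM_add _ _).trans ?_))
      exact congrArg₂ (fun x y => x + y) toM_idm (toM_del (m := 0) rfl s)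
    · refine (toM_cmp rfl g f).symm.trans ((congrArg toM h4).trans ((toM_add _ _).trans ?_))
      exact congrArg₂ (fun x y => x + y) toM_idm (toM_del (m := 0) rfl t)

end Functor

/-- The comparison of the two notions of quasi-equivalence. -/
theorem quasiEquivalent_conv {C : Type v} [Category.{w} C] [Abelian C] [Linear k C]
    [HasDerivedCategory.{w'} C] {T : ObjectProperty (DerivedCategory C)}
    (h : DG.QuasiEquivalent (DG.InjDG k C T) (DG.PerfDG R)) :
    QuasiEquivalent (InjDG k C T) (PerfDG (convA R)) := by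
  obtain ⟨A, F, G, hF, hG⟩ := h
  exact ⟨convC A, convI F, convG G, convI_quasi F hF, convG_quasi G hG⟩

end Pool.Agent.N212.Fin
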