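import Pool.Agent.N212.Fin.Geo
import Pool.Agent.N212.S1
import Pool.Agent.N212.T12

set_option autoImplicit false
set_option linter.unusedVariables false

/-!
Comparison of the geometric definitions.
-/

open CategoryTheory AlgebraicGeometry

namespace Pool.Agent.N212.Fin

open Pool.Agent.R924 Pool.Agent.W456

theorem isLinOver_linMod {k : Type} [Field k] {X : Scheme.{0}}
    (π : X ⟶ Spec (CommRingCat.of k)) : IsLinOver π (linMod π) := by
  intro M N c φ U s
  refine (congrArg (fun ψ => apSec ψ s) (@isLin_linMod k _ X π M N c φ)).trans ?_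
  exact Scheme.Modules.Hom.app_smul φ (resTop U (skK π c)) _

theorem strat_of (K : Type) [Field K] {Z : Scheme.{0}} (π : Z ⟶ Spec (CommRingCat.of K))
    (h : HasAffineStratification K π) : Pool.Agent.N212.HasAffineStratification K π := by
  obtain ⟨m, Y, i, h1, h2, h3, h4, h5⟩ := h
  refine ⟨m, Y, i, h1, h2, h3, h4, fun a => ?_⟩
  obtain ⟨n, U, e, he⟩ := h5 a
  refine ⟨n, e.hom ≫ U.ι, inferInstance, ?_⟩
  rw [Category.assoc]
  exact he

end Pool.Agent.N212.Fin
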