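import Pool.Agent.R924.Defs

set_option autoImplicit false

/-!
Linear structures on the category of modules of a scheme over a field.
-/

open CategoryTheory AlgebraicGeometry Opposite

namespace Pool.Agent.N212.Fin

open Pool.Agent.R924

/-- The restriction of a global function to an open subset. -/
def resF (X : Scheme.{0}) (f : Γ(X, ⊤)) (U : X.Opens) : Γ(X, U) :=
  (X.presheaf.map (homOfLE le_top).op).hom f

/-- The sections of a module over the structure sheaf. -/
def Sec {X : Scheme.{0}} (M : X.Modules) (U : X.Opens) : Type := Γ(M, U)

/-- The multiple of a section by a function. -/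
noncomputable def mulSec {X : Scheme.{0}} {M : X.Modules} {U : X.Opens} (f : Γ(X, U)) (s : Sec M U) :
    Sec M U := f • (show Γ(M, U) from s)

/-- The image of a section under a morphism of modules. -/
noncomputable def apSec {X : Scheme.{0}} {M N : X.Modules} {U : X.Opens} (φ : M ⟶ N) (s : Sec M U) :
    Sec N U := (φ.app U).hom s

/-- The linear structure on the category of modules is the one given by the structure morphism:
the multiple of a morphism `φ` by a scalar `c` sends a section `s` to the multiple of the image
of `s` under `φ` by the function defined by `c`. -/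
def IsLinOver {k : Type} [Field k] {X : Scheme.{0}} (π : X ⟶ Spec (CommRingCat.of k))
    (L : Linear k X.Modules) : Prop :=
  ∀ (M N : X.Modules) (c : k) (φ : M ⟶ N) (U : X.Opens) (s : Sec M U),
    apSec (c • φ) s = mulSec (resF X (skK π c) U) (apSec φ s)

/-- A stratification of a scheme over `K`: a finite cover by pairwise disjoint locally closed
subschemes, reduced and isomorphic over `K` to open subschemes of affine spaces over `K`. -/
def HasAffineStratification (K : Type) [Field K] {Z : Scheme.{0}}
    (π : Z ⟶ Spec (CommRingCat.of K)) : Prop :=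
  ∃ (m : ℕ) (Y : Fin m → Scheme.{0}) (i : ∀ a, Y a ⟶ Z), (∀ a, IsImmersion (i a)) ∧
    (∀ a, IsReduced (Y a)) ∧
    (∀ a b, a ≠ b → Disjoint (Set.range (i a)) (Set.range (i b))) ∧
    (∀ z : Z, ∃ a, z ∈ Set.range (i a)) ∧
    ∀ a, ∃ (n : ℕ) (U : (Spec (CommRingCat.of (MvPolynomial (Fin n) K))).Opens)
      (e : Y a ≅ U.toScheme),
      e.hom ≫ U.ι ≫ Spec.map (CommRingCat.ofHom (MvPolynomial.C (R := K) (σ := Fin n))) = i a ≫ π

end Pool.Agent.N212.Fin
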